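import Mathlib

/-! Statements of three algebraic blocks. -/

set_option autoImplicit false

open Matrix IsLocalRing

namespace Pool.Agent.Y802.TS

/-- Kolchin: for a group of unipotent matrices of size `n` over a field all products of `n` elements
`ρ g - 1` vanish. -/
def S_KOL : Prop :=
  ∀ (k : Type) [Field k] (G : Type) [Group G] (n : ℕ) (ρ : G →* GL (Fin n) k),
    (∀ g, IsNilpotent ((ρ g : Matrix (Fin n) (Fin n) k) - 1)) →
    ∀ g : Fin n → G, (List.ofFn fun i => (ρ (g i) : Matrix (Fin n) (Fin n) k) - 1).prod = 0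

/-- Kolchin over Noetherian rings. -/
def S_NIL : Prop :=
  ∀ (A : Type) [CommRing A] [IsNoetherianRing A] (G : Type) [Group G] (n : ℕ)
    (ρ : G →* GL (Fin n) A),
    (∀ g, ∃ r : ℕ, ∀ a b, IsNilpotent ((((ρ g : Matrix (Fin n) (Fin n) A) - 1) ^ r) a b)) →
    ∃ m : ℕ, ∀ g : Fin m → G,
      (List.ofFn fun i => (ρ (g i) : Matrix (Fin n) (Fin n) A) - 1).prod = 0

/-- Divisibility of powers of matrices over discrete valuation rings. -/
def S_VAL : Prop :=
  ∀ (O : Type) [CommRing O] [IsDomain O] [IsDiscreteValuationRing O] (n : ℕ)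
    (B : Matrix (Fin n) (Fin n) O) (t P : ℕ), 1 ≤ P →
    (∀ a b, (B ^ P) a b ∈ maximalIdeal O ^ (t * P)) →
    ∀ a b, (B ^ n) a b ∈ maximalIdeal O ^ t

end Pool.Agent.Y802.TS
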