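import Pool.Agent.Y802.TS.Core

/-! Frobenius elements and inertia groups at conjugate primes. -/

set_option autoImplicit false

open Finset NumberField Topology

namespace Pool.Agent.Y802.TS

attribute [local instance 10] DivisionRing.toRatAlgebra

open Pool.Agent.Y800

theorem conj_primes {q : ℕ} (hq : q.Prime) {P Q : Ideal ZBar} (hP : P.IsMaximal) (hQ : Q.IsMaximal)
    (hqP : (q : ZBar) ∈ P) (hqQ : (q : ZBar) ∈ Q) :
    ∃ g : GQ, ∀ x : ZBar, x ∈ Q ↔ g⁻¹ • x ∈ P :=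
  W571.FM.exists_smul P Q hP.isPrime hQ.isPrime
    ((W571.FM.cm_eq hq hP hqP).trans (W571.FM.cm_eq hq hQ hqQ).symm)

theorem frob_conj {q : ℕ} {P Q : Ideal ZBar} {g x : GQ} (h : ∀ x : ZBar, x ∈ Q ↔ g⁻¹ • x ∈ P)
    (hx : IsGeomFrob q P x) : IsGeomFrob q Q (g * x * g⁻¹) := by
  intro z
  rw [h, smul_sub, smul_pow', ← mul_smul]
  have h1 : g⁻¹ * (g * x * g⁻¹) = x * g⁻¹ := by group
  rw [h1, mul_smul]
  exact hx _

theorem Fr_conj {q : ℕ} {x : GQ} (h : Fr q x) (b : GQ) : Fr q (b * x * b⁻¹) := by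
  obtain ⟨P, hP, hqP, hx⟩ := h
  let r := MulSemiringAction.toRingEquiv GQ ZBar b⁻¹
  refine ⟨P.comap (r : ZBar →+* ZBar), Ideal.comap_isMaximal_of_equiv r, ?_, ?_⟩
  · rw [Ideal.mem_comap, map_natCast]
    exact hqP
  · exact frob_conj (P := P) (fun z => Iff.rfl) hx

/-- two Frobenius elements at one prime differ by an element of the inertia group -/
theorem frob_diff {q : ℕ} {P : Ideal ZBar} {σ σ' : GQ} (h : IsGeomFrob q P σ)
    (h' : IsGeomFrob q P σ') : InInertia P (σ'⁻¹ * σ) := by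
  intro z
  have h1 := arith_of_geom h (σ • z)
  have h2 := arith_of_geom h' (σ • z)
  rw [inv_smul_smul] at h1
  have h3 := P.sub_mem h2 h1
  rw [sub_sub_sub_cancel_right, ← mul_smul] at h3
  exact h3

/-- the splitting of a prime -/
theorem split_of {q : ℕ} (hq : q.Prime) {x : GQ} (hx : Fr q x) (F : Subgroup GQ)
    (h1 : ∀ b : GQ, b * x * b⁻¹ ∈ F)
    (h2 : ∀ P : Ideal ZBar, P.IsMaximal → (q : ZBar) ∈ P → ∀ τ : GQ, InInertia P τ → τ ∈ F) :
    ∀ P : Ideal ZBar, P.IsMaximal → (q : ZBar) ∈ P → ∀ σ : GQ, IsGeomFrob q P σ → σ ∈ F := by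
  intro P hP hqP σ hσ
  obtain ⟨P0, hP0, hqP0, hx0⟩ := hx
  obtain ⟨g, hg⟩ := conj_primes hq hP0 hP hqP0 hqP
  have h3 := frob_conj hg hx0
  have h4 := frob_diff hσ h3
  have h5 := F.mul_mem (h1 g) (h2 P hP hqP _ h4)
  rwa [mul_inv_cancel_left] at h5

/-- almost all inertia groups fix an algebraic integer -/
theorem almost_int (α : ZBar) : ∃ S : Finset ℕ, ∀ q : ℕ, q.Prime → q ∉ S → ∀ P : Ideal ZBar,
    P.IsMaximal → (q : ZBar) ∈ P → ∀ τ : GQ, InInertia P τ → τ • α = α := by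
  classical
  have hst : IsOpen (MulAction.stabilizer GQ α : Set GQ) := by
    have h1 := stabilizer_isOpen_of_isIntegral (K := ℚ) (α : AlgebraicClosure ℚ)
    have h2 : (MulAction.stabilizer GQ α : Set GQ) =
        (MulAction.stabilizer GQ (α : AlgebraicClosure ℚ) : Set GQ) := by
      ext g
      rw [SetLike.mem_coe, SetLike.mem_coe, MulAction.mem_stabilizer_iff, MulAction.mem_stabilizer_iff]
      constructor
      · intro h
        exact congrArg (fun z : ZBar => (z : AlgebraicClosure ℚ)) h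
      · intro h
        exact RingOfIntegers.ext h
    rw [h2]
    exact h1
  have hq := Subgroup.quotient_finite_of_isOpen _ hst
  have hfin : (MulAction.orbit GQ α).Finite :=
    Set.finite_coe_iff.1 (Finite.of_equiv _ (MulAction.orbitEquivQuotientStabilizer GQ α).symm)
  let R : Finset ZBar := hfin.toFinset.erase α
  let b : ZBar := ∏ β ∈ R, (β - α)
  have hb : b ≠ 0 := by
    rw [Finset.prod_ne_zero_iff]
    intro β hβ
    exact sub_ne_zero.2 (Finset.ne_of_mem_erase hβ)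
  have hI : (Ideal.span {b}).comap (algebraMap ℤ ZBar) ≠ ⊥ :=
    Ideal.comap_ne_bot_of_integral_mem hb (Ideal.mem_span_singleton_self b)
      (Algebra.IsIntegral.isIntegral b)
  obtain ⟨m, hm, hm0⟩ := Submodule.exists_mem_ne_zero_of_ne_bot hI
  refine ⟨m.natAbs.primeFactors, ?_⟩
  intro q hqp hqS P hP hqP τ hτ
  by_contra hne
  apply hqS
  have h1 : b ∈ P := by
    have h2 : τ • α ∈ R := by
      rw [Finset.mem_erase]
      exact ⟨hne, hfin.mem_toFinset.2 (MulAction.mem_orbit _ _)⟩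
    have h3 : τ • α - α ∣ b := Finset.dvd_prod_of_mem (fun β => β - α) h2
    exact P.mem_of_dvd h3 (hτ α)
  have h2 : (algebraMap ℤ ZBar m) ∈ P := by
    have h3 : algebraMap ℤ ZBar m ∈ Ideal.span {b} := hm
    exact (Ideal.span_singleton_le_iff_mem P).2 h1 h3
  rw [Nat.mem_primeFactors]
  refine ⟨hqp, ?_, by simpa using hm0⟩
  by_contra hdvd
  have hcop : IsCoprime (q : ℤ) m := by
    rw [Int.isCoprime_iff_gcd_eq_one, Int.gcd_eq_natAbs, Int.natAbs_natCast]
    exact (Nat.Prime.coprime_iff_not_dvd hqp).2 hdvd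
  obtain ⟨u, w, huw⟩ := hcop
  apply hP.ne_top
  rw [Ideal.eq_top_iff_one]
  have h4 := congrArg (algebraMap ℤ ZBar) huw
  rw [map_add, map_mul, map_mul, map_one, map_natCast] at h4
  rw [← h4]
  exact P.add_mem (P.mul_mem_left _ hqP) (P.mul_mem_left _ h2)

/-- almost all inertia groups lie in a given open subgroup -/
theorem almost_unr (U : Subgroup GQ) (hU : IsOpen (U : Set GQ)) : ∃ S : Finset ℕ, ∀ q : ℕ, q.Prime →
    q ∉ S → ∀ P : Ideal ZBar, P.IsMaximal → (q : ZBar) ∈ P → ∀ τ : GQ, InInertia P τ → τ ∈ U := by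
  obtain ⟨x, hx⟩ := exists_stab U hU
  have hal : IsAlgebraic ℤ x := by
    have h1 : IsAlgebraic ℚ x := Algebra.IsAlgebraic.isAlgebraic x
    exact (IsFractionRing.isAlgebraic_iff ℤ ℚ (AlgebraicClosure ℚ)).2 h1
  obtain ⟨m, hm0, hm⟩ := hal.exists_integral_multiple
  obtain ⟨S, hS⟩ := almost_int ⟨m • x, hm⟩
  refine ⟨S, fun q hq hqS P hP hqP τ hτ => hx τ ?_⟩
  have h1 := hS q hq hqS P hP hqP τ hτ
  have h2 : τ (m • x) = m • x := congrArg (fun z : ZBar => (z : AlgebraicClosure ℚ)) h1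
  rw [map_zsmul] at h2
  have h3 : ((m : AlgebraicClosure ℚ)) * τ x = (m : AlgebraicClosure ℚ) * x := by
    rw [← zsmul_eq_mul, ← zsmul_eq_mul]
    exact h2
  have h4 : (m : AlgebraicClosure ℚ) ≠ 0 := by exact_mod_cast hm0
  exact mul_left_cancel₀ h4 h3

end Pool.Agent.Y802.TS
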