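import Pool.Agent.Y802.TS.Fin
import Pool.Agent.Y802.TS.Tower
import Pool.Agent.Y759.TS.Kol
import Pool.Agent.Y487.TS.Val

/-! The main theorem over general coefficient rings. -/

set_option autoImplicit false

open Matrix IsLocalRing Finset NumberField Topology IntermediateField Module

namespace Pool.Agent.Y802.TS

attribute [local instance 10] DivisionRing.toRatAlgebra

open Pool.Agent.Y800

theorem Kj_open {Γ : Subgroup GQ} {A : Type} [CommRing A] [IsLocalRing A] [TopologicalSpace A]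
    (hA : IsAdic (maximalIdeal A)) {n : ℕ} (hΓ : IsOpen (Γ : Set GQ)) (ρ : Γ →* GL (Fin n) A)
    (hρ : Continuous ρ) (i : ℕ) : IsOpen (Kj ρ (maximalIdeal A ^ i) : Set GQ) := by
  apply Subgroup.isOpen_of_mem_nhds _ (g := (1 : GQ))
  have h1 : ∀ a b : Fin n, ∀ᶠ g in 𝓝 (1 : Γ),
      ((ρ g : Matrix (Fin n) (Fin n) A) - 1) a b ∈ maximalIdeal A ^ i := by
    intro a b
    have hv : Continuous fun g => (ρ g : Matrix (Fin n) (Fin n) A) :=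
      Units.continuous_val.comp hρ
    have hc : Continuous fun g => (ρ g : Matrix (Fin n) (Fin n) A) a b := hv.matrix_elem a b
    have h2 := hc.continuousAt (x := (1 : Γ))
    rw [ContinuousAt, map_one, Units.val_one] at h2
    have h3 := h2.eventually ((hA.hasBasis_nhds ((1 : Matrix (Fin n) (Fin n) A) a b)).mem_of_mem
      (i := i) trivial)
    filter_upwards [h3] with g hg
    obtain ⟨y, hy, hy'⟩ := hg
    rw [Matrix.sub_apply, ← hy']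
    simpa using hy
  have h2 : ∀ᶠ g in 𝓝 (1 : Γ), ∀ a b : Fin n,
      ((ρ g : Matrix (Fin n) (Fin n) A) - 1) a b ∈ maximalIdeal A ^ i := by
    rw [Filter.eventually_all]
    intro a
    rw [Filter.eventually_all]
    exact h1 a
  have h3 : ((↑) : Γ → GQ) '' {g : Γ | ∀ a b : Fin n,
      ((ρ g : Matrix (Fin n) (Fin n) A) - 1) a b ∈ maximalIdeal A ^ i} ∈ 𝓝 (1 : GQ) := by
    have h4 := hΓ.isOpenEmbedding_subtypeVal.image_mem_nhds (x := (1 : Γ)) (s := {g : Γ |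
      ∀ a b : Fin n, ((ρ g : Matrix (Fin n) (Fin n) A) - 1) a b ∈ maximalIdeal A ^ i})
    exact h4.2 h2
  refine Filter.mem_of_superset h3 ?_
  rintro _ ⟨g, hg, rfl⟩
  exact (mem_Kj ρ).2 ⟨g.2, hg⟩

theorem gmain (hnil : S_NIL) (f : ℕ → ℕ) :
    ∃ (T : ℕ → ℕ) (k L : IntermediateField ℚ (AlgebraicClosure ℚ)),
      (∀ i, (T i).Prime) ∧ (∀ i, f (T i) + T i < T (i + 1)) ∧ IsTower k L T ∧
      ∀ (Γ : Subgroup GQ), IsOpen (Γ : Set GQ) → ∀ (p : ℕ), p.Prime →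
        ∀ (A : Type) [CommRing A] [IsLocalRing A] [IsNoetherianRing A] [TopologicalSpace A],
        IsAdic (maximalIdeal A) → Finite (ResidueField A) → (p : A) ∈ maximalIdeal A →
        ∀ (n : ℕ) (ρ : Γ →* GL (Fin n) A), Continuous ρ →
        ((∀ γ : Γ, (∀ y ∈ L, (γ : GQ) y = y) → ρ γ = 1) → (Set.range ρ).Finite) ∧
        ((∃ S : Finset ℕ, ∀ q : ℕ, q.Prime → q ∉ S → ∀ P : Ideal ZBar, P.IsMaximal →
            (q : ZBar) ∈ P → ∀ τ : GQ, ∀ h : τ ∈ Γ, InInertia P τ → ρ ⟨τ, h⟩ = 1) →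
          (∃ i0, ∀ i ≥ i0, ∀ P : Ideal ZBar, P.IsMaximal → (T i : ZBar) ∈ P →
            ∀ σ : GQ, ∀ h : σ ∈ Γ, IsGeomFrob (T i) P σ → ∃ a : ℕ, a ≠ 0 ∧ ∃ r : ℕ,
              ((ρ ⟨σ, h⟩ : Matrix (Fin n) (Fin n) A) ^ a - 1) ^ r = 0) →
          (∃ U : Subgroup GQ, IsOpen (U : Set GQ) ∧ ∃ hU : U ≤ Γ, ∃ m : ℕ, ∀ g : Fin m → U,
            (List.ofFn fun i => (res ρ hU (g i) : Matrix (Fin n) (Fin n) A) - 1).prod = 0) ∧
          (IsNilpotent (p : A) → (Set.range ρ).Finite) ∧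
          ((∃ i0, ∀ i ≥ i0, ∀ P : Ideal ZBar, P.IsMaximal → (T i : ZBar) ∈ P →
            ∀ σ : GQ, ∀ h : σ ∈ Γ, IsGeomFrob (T i) P σ → ∃ a : ℕ, a ≠ 0 ∧ ρ ⟨σ, h⟩ ^ a = 1) →
            (Set.range ρ).Finite)) := by
  obtain ⟨g, hg⟩ := exists_dense
  obtain ⟨k, L, T, N, x, hT1, hT2, htow, hx1, hN, hx2⟩ := exists_tower f g
  refine ⟨T, k, L, hT1, hT2, htow, ?_⟩
  intro Γ hΓ p hp A _ _ _ _ hA hfin hpA n ρ hρ
  have hopen := Kj_open hA hΓ ρ hρ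
  obtain ⟨S0, hS0⟩ := almost_unr Γ hΓ
  have main : ∀ (S : Finset ℕ), (∀ q : ℕ, q.Prime → q ∉ S → ∀ P : Ideal ZBar, P.IsMaximal →
      (q : ZBar) ∈ P → ∀ τ : GQ, ∀ h : τ ∈ Γ, InInertia P τ → ρ ⟨τ, h⟩ = 1) →
      (∃ i0, ∀ i ≥ i0, ∀ P : Ideal ZBar, P.IsMaximal → (T i : ZBar) ∈ P →
            ∀ σ : GQ, ∀ h : σ ∈ Γ, IsGeomFrob (T i) P σ → ∃ a : ℕ, a ≠ 0 ∧ ∃ r : ℕ,
              ((ρ ⟨σ, h⟩ : Matrix (Fin n) (Fin n) A) ^ a - 1) ^ r = 0) →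
          (∃ U : Subgroup GQ, IsOpen (U : Set GQ) ∧ ∃ hU : U ≤ Γ, ∃ m : ℕ, ∀ g : Fin m → U,
            (List.ofFn fun i => (res ρ hU (g i) : Matrix (Fin n) (Fin n) A) - 1).prod = 0) ∧
          (IsNilpotent (p : A) → (Set.range ρ).Finite) ∧
          ((∃ i0, ∀ i ≥ i0, ∀ P : Ideal ZBar, P.IsMaximal → (T i : ZBar) ∈ P →
            ∀ σ : GQ, ∀ h : σ ∈ Γ, IsGeomFrob (T i) P σ → ∃ a : ℕ, a ≠ 0 ∧ ρ ⟨σ, h⟩ ^ a = 1) →
            (Set.range ρ).Finite) := by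
    rintro S hS ⟨i0, hi0⟩
    have hS' : UnrOut ρ (S ∪ S0) := by
      intro q hq hqS P hP hqP τ hτ
      rw [Finset.mem_union, not_or] at hqS
      have h1 := hS0 q hq hqS.2 P hP hqP τ hτ
      exact ⟨h1, hS q hq hqS.1 P hP hqP τ h1 hτ⟩
    obtain ⟨h1, h2, h3⟩ := unip_gen ρ Pool.Agent.Y487.TS.t_VAL hnil hΓ hp hpA hfin hopen _ hS' g hg
      N hN x hx2 i0 (by
        intro j hj h
        obtain ⟨P, hP, hTP, hxP⟩ := hx1 j
        exact hi0 j hj P hP hTP (x j) h hxP)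
    refine ⟨h1, h2, ?_⟩
    rintro ⟨i1, hi1⟩
    refine h3 ⟨i1, fun j hj h => ?_⟩
    obtain ⟨P, hP, hTP, hxP⟩ := hx1 j
    exact hi1 j hj P hP hTP (x j) h hxP
  refine ⟨?_, ?_⟩
  · intro hL
    have hkfin : FiniteDimensional ℚ k := FiniteDimensional.of_finrank_pos (by
      rw [htow.rank]; norm_num)
    obtain ⟨S1, hS1⟩ := almost_unr k.fixingSubgroup k.fixingSubgroup_isOpen
    have hone : ∀ i ≥ 0, ∀ P : Ideal ZBar, P.IsMaximal → (T i : ZBar) ∈ P →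
            ∀ σ : GQ, ∀ h : σ ∈ Γ, IsGeomFrob (T i) P σ → ρ ⟨σ, h⟩ = 1 := by
      intro i _ P hP hTP σ h hσ
      exact hL ⟨σ, h⟩ (htow.split i P hP hTP σ hσ)
    refine (main S1 (fun q hq hqS P hP hqP τ h hτ => ?_) ⟨0, fun i hi P hP hTP σ h hσ => ⟨1,
      one_ne_zero, 1, ?_⟩⟩).2.2 ⟨0, fun i hi P hP hTP σ h hσ => ⟨1, one_ne_zero, ?_⟩⟩
    · apply hL ⟨τ, h⟩
      refine htow.unr q hq P hP hqP τ ?_ hτ
      exact (IntermediateField.mem_fixingSubgroup_iff _ _).1 (hS1 q hq hqS P hP hqP τ hτ)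
    · rw [hone i hi P hP hTP σ h hσ, Units.val_one, one_pow, sub_self, pow_one]
    · rw [hone i hi P hP hTP σ h hσ, one_pow]
  · rintro ⟨S, hS⟩ hi0
    exact main S hS hi0

end Pool.Agent.Y802.TS
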