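import Pool.Agent.Y802.TS.Star
import Pool.Agent.Y802.TS.Trans

/-! Homomorphisms to elementary abelian groups have finite image. -/

set_option autoImplicit false

open Matrix IsLocalRing Finset NumberField Topology

namespace Pool.Agent.Y802.TS

attribute [local instance 10] DivisionRing.toRatAlgebra

open Pool.Agent.Y800

theorem conj_inertia {q : ℕ} {P : Ideal ZBar} (hP : P.IsMaximal) (hqP : (q : ZBar) ∈ P) {τ : GQ}
    (hτ : InInertia P τ) (b : GQ) : ∃ P' : Ideal ZBar, P'.IsMaximal ∧ (q : ZBar) ∈ P' ∧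
      InInertia P' (b * τ * b⁻¹) := by
  let r := MulSemiringAction.toRingEquiv GQ ZBar b⁻¹
  refine ⟨P.comap (r : ZBar →+* ZBar), Ideal.comap_isMaximal_of_equiv r, ?_, ?_⟩
  · rw [Ideal.mem_comap, map_natCast]
    exact hqP
  · intro z
    rw [Ideal.mem_comap]
    change b⁻¹ • ((b * τ * b⁻¹) • z - z) ∈ P
    rw [smul_sub, ← mul_smul]
    have h6 := hτ (b⁻¹ • z)
    rw [← mul_smul] at h6
    have h7 : b⁻¹ * (b * τ * b⁻¹) = τ * b⁻¹ := by group
    rw [h7]
    exact h6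

/-- the intersection of the normal subgroups of index at most `D` which are unramified outside `S` -/
noncomputable def H0 (S : Finset ℕ) (D : ℕ) : Subgroup GQ :=
  sInf {H : Subgroup GQ | H.Normal ∧ IsOpen (H : Set GQ) ∧ H.index ≤ D ∧
      ∀ p : ℕ, p.Prime → p ∉ S.filter Nat.Prime →
        ∀ P : Ideal ZBar, P.IsMaximal → (p : ZBar) ∈ P → ∀ τ : GQ, InInertia P τ → τ ∈ H}

theorem H0_open (S : Finset ℕ) (D : ℕ) : IsOpen (H0 S D : Set GQ) := by
  have hfin := HM.finite_subgroups (S.filter Nat.Prime)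
    (fun p hp => (Finset.mem_filter.1 hp).2) D
  unfold H0
  rw [Subgroup.coe_sInf]
  exact hfin.isOpen_biInter fun H hH => hH.2.1

theorem H0_le {S : Finset ℕ} {D : ℕ} {H : Subgroup GQ} (h2 : IsOpen (H : Set GQ))
    (h3 : H.index.factorial ≤ D)
    (h4 : ∀ q : ℕ, q.Prime → q ∉ S → ∀ P : Ideal ZBar, P.IsMaximal → (q : ZBar) ∈ P →
      ∀ τ : GQ, InInertia P τ → τ ∈ H) : H0 S D ≤ H := by
  have hidx : H.index ≠ 0 := by
    have hq : Finite (GQ ⧸ H) := Subgroup.quotient_finite_of_isOpen _ h2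
    change Nat.card (GQ ⧸ H) ≠ 0
    exact Nat.card_pos.ne'
  refine le_trans (sInf_le ⟨Subgroup.normalCore_normal _, core_open h2, ?_, ?_⟩)
    (Subgroup.normalCore_le _)
  · exact (core_index _ hidx).trans h3
  · intro q hq hqS P hP hqP τ hτ b
    obtain ⟨P', hP', hqP', hb⟩ := conj_inertia hP hqP hτ b
    apply h4 q hq ?_ P' hP' hqP' _ hb
    intro h
    exact hqS (Finset.mem_filter.2 ⟨h, hq⟩)

theorem mem_smul_top {A : Type*} [CommRing A] {n : ℕ} {I : Ideal A}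
    {X : Matrix (Fin n) (Fin n) A} (hX : ∀ a b, X a b ∈ I) :
    X ∈ I • (⊤ : Submodule A (Matrix (Fin n) (Fin n) A)) := by
  rw [Matrix.matrix_eq_sum_single X]
  refine Submodule.sum_mem _ fun i _ => Submodule.sum_mem _ fun j _ => ?_
  have h1 : Matrix.single i j (X i j) = X i j • (Matrix.single i j (1 : A)) := by
    rw [Matrix.smul_single, smul_eq_mul, mul_one]
  rw [h1]
  exact Submodule.smul_mem_smul (hX i j) trivial

theorem closed_sub {A : Type*} [CommRing A] [IsLocalRing A] [IsNoetherianRing A] {n : ℕ}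
    (N' : Submodule A (Matrix (Fin n) (Fin n) A)) {X : Matrix (Fin n) (Fin n) A}
    (hX : ∀ k : ℕ, X ∈ N' ⊔ maximalIdeal A ^ k • (⊤ : Submodule A (Matrix (Fin n) (Fin n) A))) :
    X ∈ N' := by
  have h1 : N'.mkQ X ∈ ⨅ k : ℕ, maximalIdeal A ^ k •
      (⊤ : Submodule A (Matrix (Fin n) (Fin n) A ⧸ N')) := by
    rw [Submodule.mem_iInf]
    intro k
    obtain ⟨Y, hY, Z, hZ, rfl⟩ := Submodule.mem_sup.1 (hX k)
    have h0 : N'.mkQ Y = 0 := (Submodule.Quotient.mk_eq_zero N').2 hY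
    rw [map_add, h0, zero_add]
    have h2 := Submodule.mem_map_of_mem (f := N'.mkQ) hZ
    rw [Submodule.map_smul''] at h2
    exact Submodule.smul_mono le_rfl le_top h2
  rw [Ideal.iInf_pow_smul_eq_bot_of_isLocalRing _ (maximalIdeal.isMaximal A).ne_top,
    Submodule.mem_bot] at h1
  exact (Submodule.Quotient.mk_eq_zero N').1 h1

theorem exists_functional' {V : Type*} [AddCommGroup V] (p : ℕ) [Fact p.Prime] [Module (ZMod p) V]
    (v0 : V) (hv0 : v0 ≠ 0) : ∃ f : V →+ ZMod p, f v0 ≠ 0 := by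
  by_contra hall
  push Not at hall
  apply hv0
  refine (Module.forall_dual_apply_eq_zero_iff (ZMod p) v0).1 ?_
  intro φ
  exact hall φ.toAddMonoidHom

theorem exists_functional {V : Type*} [AddCommGroup V] (p : ℕ) [Fact p.Prime]
    (hV : ∀ v : V, p • v = 0) (v0 : V) (hv0 : v0 ≠ 0) : ∃ f : V →+ ZMod p, f v0 ≠ 0 :=
  @exists_functional' V _ p _ (AddCommGroup.zmodModule hV) v0 hv0

/-- **The elementary abelian step.** -/
theorem elem {p : ℕ} [hp : Fact p.Prime] {Γ : Subgroup GQ} {A : Type*} [CommRing A] [IsLocalRing A]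
    [IsNoetherianRing A] {n : ℕ} (ρ : Γ →* GL (Fin n) A)
    (hopen : ∀ i, IsOpen (Kj ρ (maximalIdeal A ^ i) : Set GQ)) (S : Finset ℕ) (hS : UnrOut ρ S)
    (U : Subgroup GQ) (hU : IsOpen (U : Set GQ)) (hUΓ : U ≤ Γ)
    (N N' : Submodule A (Matrix (Fin n) (Fin n) A))
    (h1 : ∀ γ : GQ, γ ∈ U → ∀ h : γ ∈ Γ, (ρ ⟨γ, h⟩ : Matrix (Fin n) (Fin n) A) - 1 ∈ N)
    (h2 : ∀ X ∈ N, ∀ Y ∈ N, X * Y ∈ N') (h3 : ∀ X ∈ N, (p : A) • X ∈ N') :
    ∃ U' : Subgroup GQ, IsOpen (U' : Set GQ) ∧ U' ≤ U ∧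
      ∀ γ : GQ, γ ∈ U' → ∀ h : γ ∈ Γ, (ρ ⟨γ, h⟩ : Matrix (Fin n) (Fin n) A) - 1 ∈ N' := by
  classical
  obtain ⟨S', hS'⟩ := almost_unr U hU
  refine ⟨H0 (S ∪ S') (p * U.index).factorial ⊓ U, (H0_open _ _).inter hU, inf_le_right, ?_⟩
  rintro γ ⟨hγ0, hγU⟩ hγΓ
  apply closed_sub
  intro k
  set Nk := N' ⊔ maximalIdeal A ^ k • (⊤ : Submodule A (Matrix (Fin n) (Fin n) A)) with hNk
  -- the homomorphism
  let h : U →* Multiplicative (Matrix (Fin n) (Fin n) A ⧸ Nk) :=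
    { toFun := fun γ => Multiplicative.ofAdd (Nk.mkQ
        ((ρ ⟨γ, hUΓ γ.2⟩ : Matrix (Fin n) (Fin n) A) - 1))
      map_one' := by
        have e1 : (⟨((1 : U) : GQ), hUΓ (1 : U).2⟩ : Γ) = 1 := rfl
        rw [e1, map_one, Units.val_one, sub_self, map_zero]
        rfl
      map_mul' := by
        intro x y
        have e1 : (⟨((x * y : U) : GQ), hUΓ (x * y : U).2⟩ : Γ) =
            ⟨x, hUΓ x.2⟩ * ⟨y, hUΓ y.2⟩ := rfl
        rw [e1, map_mul, Units.val_mul, ← ofAdd_add, ← map_add]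
        congr 1
        rw [← sub_eq_zero, ← map_sub]
        apply (Submodule.Quotient.mk_eq_zero Nk).2
        have e2 : ∀ X Y : Matrix (Fin n) (Fin n) A, X * Y - 1 - ((X - 1) + (Y - 1)) =
            (X - 1) * (Y - 1) := by
          intro X Y
          noncomm_ring
        rw [e2]
        exact Submodule.mem_sup_left (h2 _ (h1 _ x.2 _) _ (h1 _ y.2 _)) }
  have hh : ∀ (x : U), (Multiplicative.toAdd (h x)) =
      Nk.mkQ ((ρ ⟨x, hUΓ x.2⟩ : Matrix (Fin n) (Fin n) A) - 1) := fun x => rfl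
  by_contra hcon
  -- the range
  let V : AddSubgroup (Matrix (Fin n) (Fin n) A ⧸ Nk) := Subgroup.toAddSubgroup' h.range
  have hV : ∀ v : V, p • v = 0 := by
    rintro ⟨v, hv⟩
    obtain ⟨x, hx⟩ : ∃ x : U, h x = Multiplicative.ofAdd v := hv
    apply Subtype.ext
    change p • v = 0
    have e1 : v = Nk.mkQ ((ρ ⟨x, hUΓ x.2⟩ : Matrix (Fin n) (Fin n) A) - 1) := by
      rw [← hh x, hx]
      rfl
    rw [e1, ← map_nsmul]
    apply (Submodule.Quotient.mk_eq_zero Nk).2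
    have e2 := h3 _ (h1 _ x.2 (hUΓ x.2))
    rw [Nat.cast_smul_eq_nsmul] at e2
    exact Submodule.mem_sup_left e2
  let v0 : V := ⟨Nk.mkQ ((ρ ⟨γ, hγΓ⟩ : Matrix (Fin n) (Fin n) A) - 1), ⟨⟨γ, hγU⟩, rfl⟩⟩
  have hv0 : v0 ≠ 0 := by
    intro h0
    apply hcon
    have h4 := congrArg Subtype.val h0
    exact (Submodule.Quotient.mk_eq_zero Nk).1 h4
  obtain ⟨ψ, hψ⟩ := exists_functional p hV v0 hv0
  let hr : U →* Multiplicative V :=
    { toFun := fun x => Multiplicative.ofAdd ⟨Multiplicative.toAdd (h x), ⟨x, rfl⟩⟩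
      map_one' := by
        apply Multiplicative.toAdd.injective
        apply Subtype.ext
        change Multiplicative.toAdd (h 1) = 0
        rw [map_one]
        rfl
      map_mul' := by
        intro x y
        apply Multiplicative.toAdd.injective
        apply Subtype.ext
        change Multiplicative.toAdd (h (x * y)) = _
        rw [map_mul]
        rfl }
  let f : U →* Multiplicative (ZMod p) := (AddMonoidHom.toMultiplicative ψ).comp hr
  have hf0 : ∀ x : U, (ρ ⟨x, hUΓ x.2⟩ : Matrix (Fin n) (Fin n) A) - 1 ∈ Nk → f x = 1 := by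
    intro x hx
    have h4 : hr x = 1 := by
      apply Multiplicative.toAdd.injective
      apply Subtype.ext
      exact (Submodule.Quotient.mk_eq_zero Nk).2 hx
    change (AddMonoidHom.toMultiplicative ψ) (hr x) = 1
    rw [h4, map_one]
  let H : Subgroup GQ := f.ker.map U.subtype
  have hHopen : IsOpen (H : Set GQ) := by
    have h5 : Kj ρ (maximalIdeal A ^ k) ⊓ U ≤ H := by
      rintro x ⟨hx1, hx2⟩
      obtain ⟨hx3, hx4⟩ := (mem_Kj ρ).1 hx1
      refine ⟨⟨x, hx2⟩, ?_, rfl⟩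
      exact hf0 ⟨x, hx2⟩ (Submodule.mem_sup_right (mem_smul_top hx4))
    exact Subgroup.isOpen_mono h5 ((hopen k).inter hU)
  have hidx : H.index ≤ p * U.index := by
    change (f.ker.map U.subtype).index ≤ _
    rw [Subgroup.index_map_subtype, Subgroup.index_ker]
    apply Nat.mul_le_mul_right
    calc Nat.card f.range ≤ Nat.card (Multiplicative (ZMod p)) := Subgroup.card_le_card_group _
      _ = p := by
        rw [Nat.card_congr Multiplicative.toAdd, Nat.card_zmod]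
  have hle : H0 (S ∪ S') (p * U.index).factorial ≤ H := by
    apply H0_le hHopen (Nat.factorial_le hidx)
    intro q hq hqS P hP hqP τ hτ
    rw [Finset.mem_union, not_or] at hqS
    have h6 := hS' q hq hqS.2 P hP hqP τ hτ
    obtain ⟨h7, h8⟩ := hS q hq hqS.1 P hP hqP τ hτ
    refine ⟨⟨τ, h6⟩, ?_, rfl⟩
    apply hf0 ⟨τ, h6⟩
    rw [h8, Units.val_one, sub_self]
    exact zero_mem _
  obtain ⟨x, hx, hxγ⟩ := hle hγ0
  have h9 : x = ⟨γ, hγU⟩ := Subtype.ext hxγ
  rw [h9] at hx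
  apply hψ
  exact congrArg Multiplicative.toAdd (hx : f ⟨γ, hγU⟩ = 1)

end Pool.Agent.Y802.TS
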