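import Pool.Agent.Y802.TS.Star

/-! The size of the quotients by powers of the maximal ideal. -/

set_option autoImplicit false

open Matrix IsLocalRing Finset

namespace Pool.Agent.Y802.TS

theorem growth2 (c : ℕ) : ∃ j0 : ℕ, ∀ j ≥ j0, ∀ N ≥ 1, c * (c ^ (c ^ (j * N))) ^ c ≤ Ej j N := by
  refine ⟨3 * c + 2, fun j hj N hN => ?_⟩
  rcases Nat.eq_zero_or_pos c with rfl | hc
  · rw [zero_mul]; exact Nat.zero_le _
  have hjN : 1 ≤ j * N := Nat.mul_pos (by omega) hN
  have h1 : c ≤ 2 ^ c := Nat.lt_two_pow_self.le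
  have h2 : c * (c ^ (c ^ (j * N))) ^ c ≤ 2 ^ (c * (1 + c * c ^ (j * N))) := by
    calc c * (c ^ (c ^ (j * N))) ^ c = c ^ (1 + c * c ^ (j * N)) := by
          rw [← pow_mul, pow_add, pow_one, mul_comm c (c ^ (j * N))]
      _ ≤ (2 ^ c) ^ (1 + c * c ^ (j * N)) := Nat.pow_le_pow_left h1 _
      _ = _ := by rw [← pow_mul]
  refine h2.trans (Nat.pow_le_pow_right (by norm_num) ?_)
  have h3 : c ^ (j * N) ≤ 2 ^ (c * (j * N)) := by
    calc c ^ (j * N) ≤ (2 ^ c) ^ (j * N) := Nat.pow_le_pow_left h1 _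
      _ = _ := by rw [← pow_mul]
  have h4 : c * (1 + c * c ^ (j * N)) ≤ 2 ^ (2 * c + 1) * 2 ^ (c * (j * N)) := by
    have h5 : 1 ≤ 2 ^ (c * (j * N)) := Nat.one_le_two_pow
    have h6 : c * c ≤ 2 ^ (2 * c) := by
      calc c * c ≤ 2 ^ c * 2 ^ c := Nat.mul_le_mul h1 h1
        _ = 2 ^ (2 * c) := by rw [← pow_add, two_mul]
    have h7 : c ≤ 2 ^ (2 * c) := h1.trans (Nat.pow_le_pow_right (by norm_num) (by omega))
    calc c * (1 + c * c ^ (j * N)) = c * 1 + c * c * c ^ (j * N) := by ring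
      _ ≤ 2 ^ (2 * c) * 2 ^ (c * (j * N)) + 2 ^ (2 * c) * 2 ^ (c * (j * N)) :=
        Nat.add_le_add (Nat.mul_le_mul h7 h5) (Nat.mul_le_mul h6 h3)
      _ = 2 ^ (2 * c + 1) * 2 ^ (c * (j * N)) := by ring
  refine h4.trans ?_
  rw [← pow_add]
  apply Nat.pow_le_pow_right (by norm_num)
  have h8 : j * j * N = j * (j * N) := by ring
  rw [h8]
  calc 2 * c + 1 + c * (j * N) ≤ (2 * c + 1) * (j * N) + c * (j * N) :=
        Nat.add_le_add (Nat.le_mul_of_pos_right _ hjN) le_rfl
    _ = (3 * c + 1) * (j * N) := by ring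
    _ ≤ j * (j * N) := Nat.mul_le_mul_right _ (by omega)

variable {A : Type*} [CommRing A] [IsLocalRing A] [IsNoetherianRing A]

omit [IsNoetherianRing A] in
theorem card_step (hfin : Finite (ResidueField A)) (S : Finset A)
    (hS : Ideal.span (S : Set A) = maximalIdeal A) (i : ℕ)
    (hi : Finite (A ⧸ maximalIdeal A ^ i)) : Finite (A ⧸ maximalIdeal A ^ (i + 1)) ∧
      Nat.card (A ⧸ maximalIdeal A ^ (i + 1)) ≤
        Nat.card (ResidueField A) * Nat.card (A ⧸ maximalIdeal A ^ i) ^ S.card := by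
  classical
  let F : ResidueField A × (S → A ⧸ maximalIdeal A ^ i) → A ⧸ maximalIdeal A ^ (i + 1) :=
    fun x => Ideal.Quotient.mk _ ((residue_surjective x.1).choose +
      ∑ g : S, (g : A) * (Ideal.Quotient.mk_surjective (x.2 g)).choose)
  have hF : Function.Surjective F := by
    intro y
    obtain ⟨a, rfl⟩ := Ideal.Quotient.mk_surjective y
    let c : A := (residue_surjective (residue A a)).choose
    have hc : residue A c = residue A a := (residue_surjective (residue A a)).choose_spec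
    have h1 : a - c ∈ maximalIdeal A := by
      rw [← residue_eq_zero_iff, map_sub, hc, sub_self]
    rw [← hS] at h1
    obtain ⟨f, hf⟩ := Submodule.mem_span_finset'.1 h1
    refine ⟨(residue A a, fun g => Ideal.Quotient.mk _ (f g)), ?_⟩
    change Ideal.Quotient.mk _ (c + _) = Ideal.Quotient.mk _ a
    rw [Ideal.Quotient.eq]
    have h2 : c + ∑ g : S, (g : A) * (Ideal.Quotient.mk_surjective
        (Ideal.Quotient.mk (maximalIdeal A ^ i) (f g))).choose - a =
        ∑ g : S, (g : A) * ((Ideal.Quotient.mk_surjective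
        (Ideal.Quotient.mk (maximalIdeal A ^ i) (f g))).choose - f g) := by
      have h3 : a = c + ∑ g : S, (g : A) * f g := by
        rw [← sub_eq_iff_eq_add', ← hf]
        exact Finset.sum_congr rfl fun g _ => by rw [smul_eq_mul, mul_comm]
      simp only [mul_sub, Finset.sum_sub_distrib]
      conv_lhs => rw [h3]
      ring
    rw [h2, pow_succ']
    refine Ideal.sum_mem _ fun g _ => Ideal.mul_mem_mul ?_ ?_
    · rw [← hS]
      exact Ideal.subset_span g.2
    · rw [← Ideal.Quotient.eq]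
      exact (Ideal.Quotient.mk_surjective (Ideal.Quotient.mk (maximalIdeal A ^ i) (f g))).choose_spec
  refine ⟨Finite.of_surjective F hF, ?_⟩
  have h1 := Nat.card_le_card_of_surjective F hF
  rw [Nat.card_prod, Nat.card_fun, Nat.card_eq_fintype_card (α := S), Fintype.card_coe] at h1
  exact h1

theorem card_bound (hfin : Finite (ResidueField A)) : ∃ c : ℕ, ∀ i : ℕ,
    Finite (A ⧸ maximalIdeal A ^ i) ∧ Nat.card (A ⧸ maximalIdeal A ^ i) ≤ c ^ (c ^ i) := by
  classical
  obtain ⟨S, hS⟩ : (maximalIdeal A).FG := IsNoetherian.noetherian _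
  set q := Nat.card (ResidueField A) with hq
  have hq1 : 1 ≤ q := Nat.card_pos
  have key : ∀ i : ℕ, Finite (A ⧸ maximalIdeal A ^ i) ∧
      Nat.card (A ⧸ maximalIdeal A ^ i) ≤ q ^ ((S.card + 1) ^ i) := by
    intro i
    induction i with
    | zero =>
      have h0 : Subsingleton (A ⧸ maximalIdeal A ^ 0) := by
        rw [pow_zero, Ideal.one_eq_top]
        exact Ideal.Quotient.subsingleton_iff.2 rfl
      refine ⟨inferInstance, ?_⟩
      rw [pow_zero (S.card + 1), pow_one]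
      exact (Nat.card_of_subsingleton (0 : A ⧸ maximalIdeal A ^ 0)).le.trans hq1
    | succ i ih =>
      obtain ⟨h1, h2⟩ := card_step hfin S hS i ih.1
      refine ⟨h1, h2.trans ?_⟩
      calc q * Nat.card (A ⧸ maximalIdeal A ^ i) ^ S.card
          ≤ q * (q ^ ((S.card + 1) ^ i)) ^ S.card :=
            Nat.mul_le_mul_left _ (Nat.pow_le_pow_left ih.2 _)
        _ = q ^ (1 + (S.card + 1) ^ i * S.card) := by rw [← pow_mul, pow_add, pow_one]
        _ ≤ q ^ ((S.card + 1) ^ (i + 1)) := by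
          apply Nat.pow_le_pow_right hq1
          rw [pow_succ, mul_add, mul_one, add_comm]
          exact Nat.add_le_add_left (Nat.one_le_pow _ _ (by omega)) _
  refine ⟨max q (S.card + 1), fun i => ⟨(key i).1, (key i).2.trans ?_⟩⟩
  calc q ^ ((S.card + 1) ^ i) ≤ (max q (S.card + 1)) ^ ((S.card + 1) ^ i) :=
        Nat.pow_le_pow_left (le_max_left _ _) _
    _ ≤ (max q (S.card + 1)) ^ ((max q (S.card + 1)) ^ i) :=
      Nat.pow_le_pow_right (hq1.trans (le_max_left _ _)) (Nat.pow_le_pow_left (le_max_right _ _) _)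

theorem hgrow_gen (hfin : Finite (ResidueField A)) (n d : ℕ) : ∃ j0, ∀ j ≥ j0, ∀ N ≥ 1,
    d * Nat.card (A ⧸ maximalIdeal A ^ (j * N)) ^ (n * n) ≤ Ej j N := by
  obtain ⟨c0, hc0⟩ := card_bound (A := A) hfin
  set c := max (max c0 1) (max d (n * n)) with hc
  obtain ⟨j0, hj0⟩ := growth2 c
  refine ⟨j0, fun j hj N hN => le_trans ?_ (hj0 j hj N hN)⟩
  have h1 : c0 ≤ c := (le_max_left _ _).trans (le_max_left _ _)
  have h2 : 1 ≤ c := (le_max_right _ _).trans (le_max_left _ _)
  have h3 : d ≤ c := (le_max_left _ _).trans (le_max_right _ _)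
  have h4 : n * n ≤ c := (le_max_right _ _).trans (le_max_right _ _)
  apply Nat.mul_le_mul h3
  calc Nat.card (A ⧸ maximalIdeal A ^ (j * N)) ^ (n * n)
      ≤ (c ^ (c ^ (j * N))) ^ (n * n) := by
        apply Nat.pow_le_pow_left
        calc _ ≤ c0 ^ (c0 ^ (j * N)) := (hc0 _).2
          _ ≤ c ^ (c0 ^ (j * N)) := Nat.pow_le_pow_left h1 _
          _ ≤ c ^ (c ^ (j * N)) := Nat.pow_le_pow_right h2 (Nat.pow_le_pow_left h1 _)
    _ ≤ (c ^ (c ^ (j * N))) ^ c := Nat.pow_le_pow_right (Nat.one_le_pow _ _ h2) h4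

end Pool.Agent.Y802.TS
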