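import Pool.Agent.Y802.TS.Fm
import Pool.Agent.Y802.TS.Elem
import Pool.Agent.Y802.TS.Grow

/-! General coefficient rings: from the reduction modulo `p` to the whole ring. -/

set_option autoImplicit false

open Matrix IsLocalRing Finset NumberField Topology

namespace Pool.Agent.Y802.TS

attribute [local instance 10] DivisionRing.toRatAlgebra

open Pool.Agent.Y800

section alg

variable {A : Type*} [CommRing A]

/-- the matrices with entries in an ideal -/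
def EI (n : ℕ) (I : Ideal A) : Submodule A (Matrix (Fin n) (Fin n) A) where
  carrier := {X | ∀ a b, X a b ∈ I}
  add_mem' := fun hX hY a b => I.add_mem (hX a b) (hY a b)
  zero_mem' := fun _ _ => I.zero_mem
  smul_mem' := fun c _ hX a b => I.mul_mem_left c (hX a b)

theorem mem_EI {n : ℕ} {I : Ideal A} {X : Matrix (Fin n) (Fin n) A} :
    X ∈ EI n I ↔ ∀ a b, X a b ∈ I := Iff.rfl

theorem artin_rees [IsNoetherianRing A] (m : Ideal A) (p : A) (J : Ideal A)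
    (hreg : ∀ y ∈ J, p * y = 0 → y = 0) :
    ∃ c : ℕ, ∀ k : ℕ, ∀ y ∈ J, p * y ∈ m ^ k → y ∈ m ^ (k - c) := by
  obtain ⟨c, hc⟩ := Ideal.exists_pow_inf_eq_pow_smul (M := A) m (Ideal.span {p} * J)
  refine ⟨c, fun k y hy hpy => ?_⟩
  rcases le_or_gt c k with hk | hk
  · have h1 : p * y ∈ m ^ k • (⊤ : Submodule A A) ⊓ Ideal.span {p} * J := by
      refine ⟨?_, Ideal.mul_mem_mul (Ideal.mem_span_singleton_self p) hy⟩
      rw [smul_eq_mul, Ideal.mul_top]
      exact hpy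
    rw [hc k hk] at h1
    have h2 : p * y ∈ m ^ (k - c) * (Ideal.span {p} * J) :=
      Submodule.smul_mono le_rfl inf_le_right h1
    rw [mul_left_comm, Ideal.mem_span_singleton_mul] at h2
    obtain ⟨z, hz, hz'⟩ := h2
    have hzJ : z ∈ J := (Ideal.mul_le_right : m ^ (k - c) * J ≤ J) hz
    have hzm : z ∈ m ^ (k - c) := (Ideal.mul_le_left : m ^ (k - c) * J ≤ m ^ (k - c)) hz
    have h4 : y - z = 0 := by
      apply hreg _ (J.sub_mem hy hzJ)
      rw [mul_sub, hz', sub_self]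
    rw [sub_eq_zero] at h4
    rw [h4]
    exact hzm
  · have h0 : k - c = 0 := by omega
    rw [h0, pow_zero, Ideal.one_eq_top]
    trivial

theorem artin_rees_iter {m : Ideal A} {p : A} {J : Ideal A} {c : ℕ}
    (hc : ∀ k : ℕ, ∀ y ∈ J, p * y ∈ m ^ k → y ∈ m ^ (k - c)) (v : ℕ) :
    ∀ k : ℕ, ∀ y ∈ J, p ^ v * y ∈ m ^ k → y ∈ m ^ (k - c * v) := by
  induction v with
  | zero => intro k y _ h; simpa using h
  | succ v ih =>
    intro k y hy h
    have h1 : p ^ v * y ∈ m ^ (k - c) := by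
      apply hc k _ (J.mul_mem_left _ hy)
      rwa [← mul_assoc, ← pow_succ']
    have h2 := ih (k - c) y hy h1
    have h3 : k - c - c * v = k - c * (v + 1) := by
      rw [mul_add, mul_one]
      omega
    rwa [h3] at h2

theorem exists_tors [IsNoetherianRing A] (p : A) :
    ∃ c : ℕ, ∀ (k : ℕ) (a : A), p ^ k * a = 0 → p ^ c * a = 0 := by
  let f : ℕ →o Submodule A A := ⟨fun k => LinearMap.ker (LinearMap.lsmul A A (p ^ k)), by
    intro i j hij a ha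
    obtain ⟨d, rfl⟩ := Nat.exists_eq_add_of_le hij
    rw [LinearMap.mem_ker, LinearMap.lsmul_apply, smul_eq_mul] at ha ⊢
    rw [add_comm, pow_add, mul_assoc, ha, mul_zero]⟩
  obtain ⟨c, hc⟩ := monotone_stabilizes_iff_noetherian.2 (inferInstance : IsNoetherian A A) f
  refine ⟨c, fun k a ha => ?_⟩
  have h1 : a ∈ f (max c k) := by
    have h2 : a ∈ f k := by
      change a ∈ LinearMap.ker (LinearMap.lsmul A A (p ^ k))
      rw [LinearMap.mem_ker, LinearMap.lsmul_apply, smul_eq_mul]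
      exact ha
    exact f.monotone (le_max_right c k) h2
  rw [← hc _ (le_max_left c k)] at h1
  exact h1

end alg

section

variable {Γ : Subgroup GQ} {A : Type*} [CommRing A] [IsLocalRing A] {n : ℕ}
  (ρ : Γ →* GL (Fin n) A)

/-- the restriction -/
noncomputable def res {U : Subgroup GQ} (h : U ≤ Γ) : U →* GL (Fin n) A :=
  ρ.comp (Subgroup.inclusion h)

omit [IsLocalRing A] in
theorem res_apply {U : Subgroup GQ} (h : U ≤ Γ) (γ : GQ) (hγ : γ ∈ U) :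
    res ρ h ⟨γ, hγ⟩ = ρ ⟨γ, h hγ⟩ := rfl

omit [IsLocalRing A] in
theorem Kj_res {U : Subgroup GQ} (h : U ≤ Γ) (J : Ideal A) : Kj (res ρ h) J = Kj ρ J ⊓ U := by
  ext γ
  rw [mem_Kj, Subgroup.mem_inf, mem_Kj]
  constructor
  · rintro ⟨h1, h2⟩
    exact ⟨⟨h h1, h2⟩, h1⟩
  · rintro ⟨⟨h1, h2⟩, h3⟩
    exact ⟨h3, h2⟩

omit [IsLocalRing A] in
theorem unr_res {U : Subgroup GQ} (hU : IsOpen (U : Set GQ)) (h : U ≤ Γ) (S : Finset ℕ)
    (hS : UnrOut ρ S) : ∃ S' : Finset ℕ, UnrOut (res ρ h) S' := by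
  obtain ⟨S', hS'⟩ := almost_unr U hU
  refine ⟨S ∪ S', ?_⟩
  intro q hq hqS P hP hqP τ hτ
  rw [Finset.mem_union, not_or] at hqS
  have h1 := hS' q hq hqS.2 P hP hqP τ hτ
  obtain ⟨h2, h3⟩ := hS q hq hqS.1 P hP hqP τ hτ
  exact ⟨h1, h3⟩

omit [IsLocalRing A] in
theorem range_finite_of_sub {U : Subgroup GQ} (hU : IsOpen (U : Set GQ)) 
    (h1 : ∀ γ ∈ U, ∀ h : γ ∈ Γ, ρ ⟨γ, h⟩ = 1) : (Set.range ρ).Finite :=
  range_finite_of_le ρ U (finiteIndex_of_open hU) h1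

/-- the main estimate in general rings -/
theorem est_J [IsNoetherianRing A] {p : ℕ} (hΓ : IsOpen (Γ : Set GQ)) (hp : p.Prime)
    (hpA : (p : A) ∈ maximalIdeal A) (hfin : Finite (ResidueField A))
    (hopen : ∀ i, IsOpen (Kj ρ (maximalIdeal A ^ i) : Set GQ)) (S : Finset ℕ) (hS : UnrOut ρ S)
    (g : ℕ → GQ) (hg : ∀ U : Subgroup GQ, IsOpen (U : Set GQ) → ∀ (γ : GQ) (j0 : ℕ),
      ∃ j, j0 ≤ j ∧ γ⁻¹ * g j ∈ U)
    (N : ℕ → ℕ) (hN : ∀ j, 1 ≤ N j) (x : ℕ → GQ)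
    (hx : ∀ j, x j * (g j ^ N j)⁻¹ ∈ Hj j (N j)) (j1 : ℕ)
    (hfrob : ∀ j ≥ j1, ∀ h : x j ∈ Γ, ∃ a : ℕ, a ≠ 0 ∧ ρ ⟨x j, h⟩ ^ a = 1)
    (J : Ideal A) (hreg : ∀ y ∈ J, (p : A) * y = 0 → y = 0)
    (hJ : ∀ γ : Γ, (ρ γ : Matrix (Fin n) (Fin n) A) - 1 ∈ EI n J)
    (hDp : ∀ γ : Γ, Dp p (ρ γ : Matrix (Fin n) (Fin n) A)) (γ : Γ) : ρ γ = 1 := by
  obtain ⟨c, hc⟩ := artin_rees (maximalIdeal A) (p : A) J hreg
  obtain ⟨j0, hj0⟩ := star ρ hΓ (fun i => maximalIdeal A ^ i)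
    (fun i => ((card_bound hfin).choose_spec i).1) (hgrow_gen hfin n) hopen S hS
  have hregv : ∀ v : ℕ, ∀ y ∈ J, (p : A) ^ v * y = 0 → y = 0 := by
    intro v
    induction v with
    | zero => intro y _ h; simpa using h
    | succ v ih =>
      intro y hy h
      apply ih y hy
      apply hreg _ (J.mul_mem_left _ hy)
      rwa [← mul_assoc, ← pow_succ']
  have key : ∀ i, (γ : GQ) ∈ Kj ρ (maximalIdeal A ^ i) := by
    intro i
    obtain ⟨j, hj, hgj⟩ := hg _ (hopen i) γ (max (max j0 j1) (i + c + 1))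
    have hjj0 : j0 ≤ j := (le_max_left _ _).trans ((le_max_left _ _).trans hj)
    have hjj1 : j1 ≤ j := (le_max_right _ _).trans ((le_max_left _ _).trans hj)
    have hji : i + c + 1 ≤ j := (le_max_right _ _).trans hj
    have hNj := hN j
    have hgK : g j ∈ Kj ρ (maximalIdeal A ^ 0) := by
      have h0 : ∀ y : GQ, y ∈ Γ → y ∈ Kj ρ (maximalIdeal A ^ 0) := by
        intro y hy
        refine (mem_Kj ρ).2 ⟨hy, fun a b => ?_⟩
        rw [pow_zero, Ideal.one_eq_top]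
        trivial
      apply h0
      have h1 := ((mem_Kj ρ).1 hgj).1
      have h2 := Γ.mul_mem γ.2 h1
      rwa [mul_inv_cancel_left] at h2
    have hx1 : ∀ h : x j ∈ Γ, ρ ⟨x j, h⟩ = 1 := by
      intro h
      obtain ⟨a, ha, h1⟩ := hfrob j hjj1 h
      obtain ⟨W, hW, h2⟩ := pow_lemma hp hpA (hDp ⟨x j, h⟩) a ha
      have h3 : (ρ ⟨x j, h⟩ : Matrix (Fin n) (Fin n) A) ^ a = 1 := by
        rw [← Units.val_pow_eq_pow_val, h1, Units.val_one]
      rw [h3, sub_self] at h2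
      have h4 : ((ρ ⟨x j, h⟩ : Matrix (Fin n) (Fin n) A) - 1) * W = 0 := by
        ext a' b'
        apply hregv (padicValNat p a) _ (mem_mul_left (hJ ⟨x j, h⟩) a' b')
        exact (congrFun (congrFun h2 a') b').symm
      obtain ⟨u, rfl⟩ := hW
      have h5 : (ρ ⟨x j, h⟩ : Matrix (Fin n) (Fin n) A) - 1 = 0 := by
        have h6 := congrArg (fun Z => Z * ((u⁻¹ : (Matrix (Fin n) (Fin n) A)ˣ) :
          Matrix (Fin n) (Fin n) A)) h4
        simp only [mul_assoc, Units.mul_inv, mul_one, zero_mul] at h6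
        exact h6
      exact Units.ext (sub_eq_zero.1 h5)
    obtain ⟨h1, h2⟩ := frob_rel ρ (fun i => maximalIdeal A ^ i) (N := N j) (j := j) hgK
      (hj0 j hjj0 _ hNj (hx j)) hx1
    obtain ⟨W, hW, h3⟩ := pow_lemma hp hpA (hDp ⟨g j, h1⟩) (N j) (by omega)
    have hvN : padicValNat p (N j) ≤ N j := by
      have h3 : padicValNat p (N j) < N j := by
        have h4 := padicValNat_le_nat_log (p := p) (N j)
        have h5 : Nat.log p (N j) < N j := Nat.log_lt_self _ (by omega)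
        omega
      exact h3.le
    have hle : i ≤ j * N j - c * padicValNat p (N j) := by
      have h5 : c * padicValNat p (N j) ≤ c * N j := Nat.mul_le_mul_left _ hvN
      have h6 : (i + c) * N j ≤ j * N j := Nat.mul_le_mul_right _ (by omega)
      have h7 : i ≤ i * N j := Nat.le_mul_of_pos_right _ hNj
      rw [add_mul] at h6
      omega
    have h4 : ∀ a b, (((ρ ⟨g j, h1⟩ : Matrix (Fin n) (Fin n) A) - 1) * W) a b ∈
        maximalIdeal A ^ i := by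
      intro a b
      have h5 := artin_rees_iter hc (padicValNat p (N j)) (j * N j) _
        (mem_mul_left (hJ ⟨g j, h1⟩) a b) (by
          have h6 := h2 a b
          rw [h3] at h6
          exact h6)
      exact Ideal.pow_le_pow_right hle h5
    obtain ⟨u, rfl⟩ := hW
    have h5 : (ρ ⟨g j, h1⟩ : Matrix (Fin n) (Fin n) A) - 1 =
        (((ρ ⟨g j, h1⟩ : Matrix (Fin n) (Fin n) A) - 1) * (u : Matrix (Fin n) (Fin n) A)) *
          ((u⁻¹ : (Matrix (Fin n) (Fin n) A)ˣ) : Matrix (Fin n) (Fin n) A) := by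
      rw [mul_assoc, Units.mul_inv, mul_one]
    have h6 : g j ∈ Kj ρ (maximalIdeal A ^ i) := by
      refine (mem_Kj ρ).2 ⟨h1, fun a b => ?_⟩
      rw [h5]
      exact mem_mul_left h4 a b
    have h7 := (Kj ρ (maximalIdeal A ^ i)).mul_mem h6
      ((Kj ρ (maximalIdeal A ^ i)).inv_mem hgj)
    have h8 : g j * ((γ : GQ)⁻¹ * g j)⁻¹ = γ := by group
    rwa [h8] at h7
  apply Units.ext
  rw [Units.val_one, ← sub_eq_zero]
  ext a b
  have h2 : ((ρ γ : Matrix (Fin n) (Fin n) A) - 1) a b ∈ ⨅ i : ℕ, maximalIdeal A ^ i := by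
    rw [Ideal.mem_iInf]
    intro i
    obtain ⟨_, h4⟩ := (mem_Kj ρ).1 (key i)
    exact h4 a b
  rw [Ideal.iInf_pow_eq_bot_of_isLocalRing _ (maximalIdeal.isMaximal A).ne_top] at h2
  exact h2

theorem gen_of_mod_p [IsNoetherianRing A] {p : ℕ} (hp : p.Prime)
    (hpA : (p : A) ∈ maximalIdeal A) (hfin : Finite (ResidueField A))
    (hopen : ∀ i, IsOpen (Kj ρ (maximalIdeal A ^ i) : Set GQ)) (S : Finset ℕ) (hS : UnrOut ρ S)
    (g : ℕ → GQ) (hg : ∀ U : Subgroup GQ, IsOpen (U : Set GQ) → ∀ (γ : GQ) (j0 : ℕ),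
      ∃ j, j0 ≤ j ∧ γ⁻¹ * g j ∈ U)
    (N : ℕ → ℕ) (hN : ∀ j, 1 ≤ N j) (x : ℕ → GQ)
    (hx : ∀ j, x j * (g j ^ N j)⁻¹ ∈ Hj j (N j)) (j1 : ℕ)
    (hfrob : ∀ j ≥ j1, ∀ h : x j ∈ Γ, ∃ a : ℕ, a ≠ 0 ∧ ρ ⟨x j, h⟩ ^ a = 1)
    (U1 : Subgroup GQ) (hU1 : IsOpen (U1 : Set GQ)) (hU1Γ : U1 ≤ Γ)
    (h1 : ∀ γ : GQ, γ ∈ U1 → ∀ h : γ ∈ Γ, ∀ a b,
      ((ρ ⟨γ, h⟩ : Matrix (Fin n) (Fin n) A) - 1) a b ∈ Ideal.span {(p : A)}) :
    (Set.range ρ).Finite := by
  have hpf : Fact p.Prime := ⟨hp⟩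
  obtain ⟨c, hc⟩ := exists_tors (p : A)
  have key : ∀ k : ℕ, ∃ U : Subgroup GQ, IsOpen (U : Set GQ) ∧ U ≤ Γ ∧
      ∀ γ : GQ, γ ∈ U → ∀ h : γ ∈ Γ,
        (ρ ⟨γ, h⟩ : Matrix (Fin n) (Fin n) A) - 1 ∈ EI n (Ideal.span {(p : A) ^ (k + 1)}) := by
    intro k
    induction k with
    | zero =>
      refine ⟨U1, hU1, hU1Γ, fun γ hγ h a b => ?_⟩
      rw [zero_add, pow_one]
      exact h1 γ hγ h a b
    | succ k ih =>
      obtain ⟨U, hU, hUΓ, h2⟩ := ih
      obtain ⟨U', hU', hU'U, h3⟩ := elem (p := p) ρ hopen S hS U hU hUΓ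
        (EI n (Ideal.span {(p : A) ^ (k + 1)})) (EI n (Ideal.span {(p : A) ^ (k + 1 + 1)})) h2 (by
          intro X hX Y hY a b
          rw [Matrix.mul_apply]
          refine Ideal.sum_mem _ fun i _ => ?_
          obtain ⟨u, hu⟩ := Ideal.mem_span_singleton.1 (hX a i)
          obtain ⟨w, hw⟩ := Ideal.mem_span_singleton.1 (hY i b)
          rw [Ideal.mem_span_singleton, hu, hw]
          refine ⟨(p : A) ^ k * u * w, ?_⟩
          ring) (by
          intro X hX a b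
          obtain ⟨u, hu⟩ := Ideal.mem_span_singleton.1 (hX a b)
          rw [Matrix.smul_apply, smul_eq_mul, Ideal.mem_span_singleton, hu]
          exact ⟨u, by ring⟩)
      exact ⟨U', hU', hU'U.trans hUΓ, h3⟩
  obtain ⟨U, hU, hUΓ, h2⟩ := key (c + 1)
  obtain ⟨S', hS'⟩ := unr_res ρ hU hUΓ S hS
  refine range_finite_of_sub ρ hU fun γ hγ h => ?_
  have h3 := est_J (res ρ hUΓ) hU hp hpA hfin (fun i => by
      rw [Kj_res]
      exact (hopen i).inter hU) S' hS' g hg N hN x hx j1 (by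
      intro j hj hxU
      exact hfrob j hj (hUΓ hxU)) (Ideal.span {(p : A) ^ (c + 1 + 1)}) (by
      intro y hy h0
      obtain ⟨u, rfl⟩ := Ideal.mem_span_singleton.1 hy
      have h4 : (p : A) ^ (c + 3) * u = 0 := by
        rw [← h0]; ring
      have h5 := hc _ _ h4
      calc (p : A) ^ (c + 1 + 1) * u = (p : A) ^ 2 * ((p : A) ^ c * u) := by ring
        _ = 0 := by rw [h5, mul_zero]) (by
      rintro ⟨y, hy⟩
      exact h2 y hy (hUΓ hy)) (by
      rintro ⟨y, hy⟩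
      have h4 : ∀ a b, ∃ z : A, ((ρ ⟨y, hUΓ hy⟩ : Matrix (Fin n) (Fin n) A) - 1) a b =
          (p : A) ^ (c + 1 + 1) * z := by
        intro a b
        obtain ⟨z, hz⟩ := Ideal.mem_span_singleton.1 (h2 y hy (hUΓ hy) a b)
        exact ⟨z, hz⟩
      choose Z hZ using h4
      refine ⟨Matrix.of fun a b => (p : A) ^ (c + 1) * Z a b, fun a b => ?_, ?_⟩
      · rw [Matrix.of_apply, pow_succ, mul_assoc]
        exact Ideal.mul_mem_left _ _ (Ideal.mul_mem_right _ _ hpA)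
      · rw [← sub_eq_iff_eq_add']
        ext a b
        rw [res_apply, hZ, Matrix.smul_apply, Matrix.of_apply, smul_eq_mul]
        ring) ⟨γ, hγ⟩
  exact h3

end

end Pool.Agent.Y802.TS
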