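import Pool.Agent.Y802.TS.Fm
import Pool.Agent.Y802.TS.Gen
import Pool.Agent.Y802.TS.Stm

/-! The estimate in characteristic `p`. -/

set_option autoImplicit false

open Matrix IsLocalRing Finset NumberField Topology Polynomial

namespace Pool.Agent.Y802.TS

attribute [local instance 10] DivisionRing.toRatAlgebra

open Pool.Agent.Y800

section alg

variable {A : Type*} [CommRing A] {n : ℕ}

theorem map_eq_of {J : Ideal A} {X Y : Matrix (Fin n) (Fin n) A} :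
    (∀ a b, (X - Y) a b ∈ J) ↔
      (Ideal.Quotient.mk J).mapMatrix X = (Ideal.Quotient.mk J).mapMatrix Y := by
  constructor
  · intro h
    ext a b
    rw [RingHom.mapMatrix_apply, RingHom.mapMatrix_apply, Matrix.map_apply, Matrix.map_apply]
    exact Ideal.Quotient.eq.2 (h a b)
  · intro h a b
    have h1 := congrFun (congrFun h a) b
    rw [RingHom.mapMatrix_apply, RingHom.mapMatrix_apply, Matrix.map_apply, Matrix.map_apply] at h1
    exact Ideal.Quotient.eq.1 h1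

theorem mem_of_map {J : Ideal A} {X : Matrix (Fin n) (Fin n) A} :
    (∀ a b, X a b ∈ J) ↔ (Ideal.Quotient.mk J).mapMatrix X = 0 := by
  have h := map_eq_of (J := J) (X := X) (Y := 0)
  rw [sub_zero, map_zero] at h
  exact h

theorem sub_one_pow_congr {J : Ideal A} {X Y : Matrix (Fin n) (Fin n) A}
    (h : ∀ a b, (X - Y) a b ∈ J) (r : ℕ) (hY : ∀ a b, ((Y - 1) ^ r) a b ∈ J) (a b : Fin n) :
    ((X - 1) ^ r) a b ∈ J := by
  revert a b
  rw [mem_of_map, map_pow, map_sub, map_one] at hY ⊢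
  rw [map_eq_of.1 h]
  exact hY

theorem mem_of_mul_unit {J : Ideal A} {X W : Matrix (Fin n) (Fin n) A} (hW : IsUnit W)
    (h : ∀ a b, (X * W) a b ∈ J) (a b : Fin n) : X a b ∈ J := by
  obtain ⟨u, rfl⟩ := hW
  have h5 : X = (X * (u : Matrix (Fin n) (Fin n) A)) *
      ((u⁻¹ : (Matrix (Fin n) (Fin n) A)ˣ) : Matrix (Fin n) (Fin n) A) := by
    rw [mul_assoc, Units.mul_inv, mul_one]
  rw [h5, Matrix.mul_apply]
  exact J.sum_mem fun k _ => J.mul_mem_right _ (h a k)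

/-- nilpotent matrices over reduced rings -/
theorem nilp_pow [IsDomain A] {X : Matrix (Fin n) (Fin n) A} (h : IsNilpotent X) : X ^ n = 0 := by
  have h1 := Matrix.isNilpotent_charpoly_sub_pow_of_isNilpotent h
  have h2 : X.charpoly - Polynomial.X ^ Fintype.card (Fin n) = 0 := h1.eq_zero
  have h3 := Matrix.aeval_self_charpoly X
  rw [sub_eq_zero.1 h2, map_pow, aeval_X, Fintype.card_fin] at h3
  exact h3

/-- the power lemma in characteristic `p` -/
theorem pow_char [IsLocalRing A] {p : ℕ} (hp : p.Prime) (hp0 : (p : A) = 0)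
    {M : Matrix (Fin n) (Fin n) A} (hM : ∀ a b, (M - 1) a b ∈ maximalIdeal A) (N : ℕ)
    (hN : N ≠ 0) : ∃ (P : ℕ) (W : Matrix (Fin n) (Fin n) A), 1 ≤ P ∧ P ≤ N ∧ IsUnit W ∧
      Commute W M ∧ M ^ N - 1 = (M - 1) ^ P * W := by
  have hfact : Fact p.Prime := ⟨hp⟩
  have hch : CharP A p := by
    obtain ⟨q, hq⟩ := CharP.exists A
    have h1 : q ∣ p := (CharP.cast_eq_zero_iff A q p).1 hp0
    rcases (Nat.dvd_prime hp).1 h1 with h2 | h2
    · rw [h2] at hq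
      have := CharP.cast_eq_zero A 1
      rw [Nat.cast_one] at this
      exact absurd this one_ne_zero
    · rwa [h2] at hq
  obtain ⟨v, u, hu, rfl⟩ := Nat.exists_eq_pow_mul_and_not_dvd hN p hp.ne_one
  have hu0 : u ≠ 0 := by
    rintro rfl
    exact hN (mul_zero _)
  have hadd : ∀ X Y : Matrix (Fin n) (Fin n) A, Commute X Y →
      (X + Y) ^ p ^ v = X ^ p ^ v + Y ^ p ^ v := by
    intro X Y hXY
    rcases isEmpty_or_nonempty (Fin n) with hn | hn
    · ext a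
      exact (hn.false a).elim
    · exact add_pow_char_pow_of_commute (R := Matrix (Fin n) (Fin n) A) p v hXY
  have h1 : M ^ p ^ v = 1 + (M - 1) ^ p ^ v := by
    have h2 := hadd 1 (M - 1) (Commute.one_left _)
    rw [add_sub_cancel, one_pow] at h2
    exact h2
  have h3 : ∀ i : ℕ, ∀ a b, ((M ^ p ^ v) ^ i - 1) a b ∈ maximalIdeal A := by
    intro i
    rw [map_eq_of, map_pow, map_pow, map_eq_of.1 hM, map_one, one_pow, one_pow]
  refine ⟨p ^ v, ∑ i ∈ range u, (M ^ p ^ v) ^ i, Nat.one_le_pow _ _ hp.pos,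
    Nat.le_mul_of_pos_right _ (Nat.pos_of_ne_zero hu0), ?_, ?_, ?_⟩
  · have hunit : IsUnit ((u : ℕ) : A) := by
      by_contra hun
      have h4 : ((u : ℕ) : A) ∈ maximalIdeal A := (mem_maximalIdeal _).2 hun
      have hcop : IsCoprime (p : ℤ) (u : ℤ) := by
        rw [Nat.isCoprime_iff_coprime]
        exact (Nat.Prime.coprime_iff_not_dvd hp).2 hu
      obtain ⟨a, b, hab⟩ := hcop
      have h5 : (1 : A) = (a : A) * (p : A) + (b : A) * (u : A) := by
        have := congrArg (fun z : ℤ => (z : A)) hab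
        push_cast at this
        exact this.symm
      have h6 : (1 : A) ∈ maximalIdeal A := by
        rw [h5, hp0, mul_zero, zero_add]
        exact Ideal.mul_mem_left _ _ h4
      exact (Ideal.ne_top_iff_one _).1 (maximalIdeal.isMaximal A).ne_top h6
    have h7 : ∑ i ∈ range u, (M ^ p ^ v) ^ i = (u : A) • (1 : Matrix (Fin n) (Fin n) A) +
        ∑ i ∈ range u, ((M ^ p ^ v) ^ i - 1) := by
      rw [Finset.sum_sub_distrib, Finset.sum_const, card_range, Nat.cast_smul_eq_nsmul]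
      abel
    rw [h7]
    apply isUnit_of_add hunit
    intro a b
    rw [Matrix.sum_apply]
    exact Ideal.sum_mem _ fun i _ => h3 i a b
  · refine Commute.sum_left _ _ _ fun i _ => ?_
    exact ((Commute.refl M).pow_left _).pow_left _
  · rw [pow_mul, ← mul_geom_sum, h1, add_sub_cancel_left]

end alg

section

variable {Γ : Subgroup GQ} {O : Type} [CommRing O] [IsDomain O] [IsDiscreteValuationRing O]
  {n : ℕ} (ρ : Γ →* GL (Fin n) O)

theorem est_char (hval : S_VAL) {p : ℕ} (hΓ : IsOpen (Γ : Set GQ)) (hp : p.Prime)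
    (hp0 : (p : O) = 0) (hfin : Finite (ResidueField O))
    (hopen : ∀ i, IsOpen (Kj ρ (maximalIdeal O ^ i) : Set GQ)) (S : Finset ℕ) (hS : UnrOut ρ S)
    (g : ℕ → GQ) (hg : ∀ U : Subgroup GQ, IsOpen (U : Set GQ) → ∀ (γ : GQ) (j0 : ℕ),
      ∃ j, j0 ≤ j ∧ γ⁻¹ * g j ∈ U)
    (N : ℕ → ℕ) (hN : ∀ j, 1 ≤ N j) (x : ℕ → GQ)
    (hx : ∀ j, x j * (g j ^ N j)⁻¹ ∈ Hj j (N j)) (j1 : ℕ)
    (hfrob : ∀ j ≥ j1, ∀ h : x j ∈ Γ, ∃ a : ℕ, a ≠ 0 ∧ ∃ r : ℕ,
      ((ρ ⟨x j, h⟩ : Matrix (Fin n) (Fin n) O) ^ a - 1) ^ r = 0)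
    (γ : GQ) (hγ : γ ∈ Kj ρ (maximalIdeal O)) (hγΓ : γ ∈ Γ) :
    ((ρ ⟨γ, hγΓ⟩ : Matrix (Fin n) (Fin n) O) - 1) ^ n = 0 := by
  rcases Nat.eq_zero_or_pos n with rfl | hn
  · ext a
    exact a.elim0
  obtain ⟨j0, hj0⟩ := star ρ hΓ (fun i => maximalIdeal O ^ i)
    (fun i => ((card_bound hfin).choose_spec i).1) (hgrow_gen hfin n) hopen S hS
  have key : ∀ t ≥ 1, ∀ a b,
      (((ρ ⟨γ, hγΓ⟩ : Matrix (Fin n) (Fin n) O) - 1) ^ n) a b ∈ maximalIdeal O ^ t := by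
    intro t ht
    obtain ⟨j, hj, hgj⟩ := hg _ (hopen t) γ (max (max j0 j1) (t * n + 1))
    have hjj0 : j0 ≤ j := (le_max_left _ _).trans ((le_max_left _ _).trans hj)
    have hjj1 : j1 ≤ j := (le_max_right _ _).trans ((le_max_left _ _).trans hj)
    have hjt : t * n + 1 ≤ j := (le_max_right _ _).trans hj
    have hNj := hN j
    have hK1 : ∀ (i : ℕ), 1 ≤ i → Kj ρ (maximalIdeal O ^ i) ≤ Kj ρ (maximalIdeal O) := by
      intro i hi
      exact Kj_mono ρ (Ideal.pow_le_self (by omega))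
    have hgK : g j ∈ Kj ρ (maximalIdeal O) := by
      have h2 := (Kj ρ (maximalIdeal O)).mul_mem hγ (hK1 t ht hgj)
      rwa [mul_inv_cancel_left] at h2
    have hjN : 1 ≤ j * N j := Nat.mul_pos (by omega) hNj
    have hxg : x j * (g j ^ N j)⁻¹ ∈ Kj ρ (maximalIdeal O ^ (j * N j)) := hj0 j hjj0 _ hNj (hx j)
    have hxK : x j ∈ Kj ρ (maximalIdeal O) := by
      have h1 := (Kj ρ (maximalIdeal O)).mul_mem (hK1 _ hjN hxg)
        ((Kj ρ (maximalIdeal O)).pow_mem hgK (N j))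
      rwa [inv_mul_cancel_right] at h1
    obtain ⟨hgΓ, hg1⟩ := (mem_Kj ρ).1 hgK
    obtain ⟨hxΓ, hx1⟩ := (mem_Kj ρ).1 hxK
    obtain ⟨hyΓ, hy1⟩ := (mem_Kj ρ).1 hxg
    obtain ⟨hdΓ, hd1⟩ := (mem_Kj ρ).1 hgj
    have hxy : (⟨x j, hxΓ⟩ : Γ) = ⟨_, hyΓ⟩ * (⟨g j, hgΓ⟩ : Γ) ^ N j := by
      apply Subtype.ext
      change x j = x j * (g j ^ N j)⁻¹ * g j ^ N j
      rw [inv_mul_cancel_right]
    have hgd : (⟨g j, hgΓ⟩ : Γ) = ⟨γ, hγΓ⟩ * ⟨_, hdΓ⟩ := by
      apply Subtype.ext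
      change g j = γ * (γ⁻¹ * g j)
      rw [mul_inv_cancel_left]
    -- the Frobenius element
    obtain ⟨a, ha, r, hxa⟩ := hfrob j hjj1 hxΓ
    have hx0 : ((ρ ⟨x j, hxΓ⟩ : Matrix (Fin n) (Fin n) O) - 1) ^ n = 0 := by
      obtain ⟨P, W, hP1, hP2, hW, hWc, h1⟩ := pow_char hp hp0 hx1 a ha
      apply nilp_pow
      refine ⟨P * r, ?_⟩
      have hc : Commute (((ρ ⟨x j, hxΓ⟩ : Matrix (Fin n) (Fin n) O) - 1) ^ P) W :=
        ((hWc.symm.sub_left (Commute.one_left W)).pow_left P)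
      rw [h1, hc.mul_pow, ← pow_mul] at hxa
      ext a' b'
      have h2 := mem_of_mul_unit (J := (⊥ : Ideal O)) (hW.pow r) (by
        intro a'' b''
        rw [hxa]
        exact Submodule.zero_mem _) a' b'
      exact (Submodule.mem_bot O).1 h2
    -- comparison with the power of `g j`
    obtain ⟨P, W, hP1, hP2, hW, hWc, h1⟩ := pow_char hp hp0 hg1 (N j) (by omega)
    have hc : Commute (((ρ ⟨g j, hgΓ⟩ : Matrix (Fin n) (Fin n) O) - 1) ^ P) W :=
        ((hWc.symm.sub_left (Commute.one_left W)).pow_left P)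
    have h2 : ∀ a b, (((ρ ⟨g j, hgΓ⟩ : Matrix (Fin n) (Fin n) O) ^ N j - 1) ^ n) a b ∈
        maximalIdeal O ^ (j * N j) := by
      refine sub_one_pow_congr (Y := (ρ ⟨x j, hxΓ⟩ : Matrix (Fin n) (Fin n) O)) ?_ n ?_
      · intro a b
        have h3 : (ρ ⟨g j, hgΓ⟩ : Matrix (Fin n) (Fin n) O) ^ N j - ρ ⟨x j, hxΓ⟩ =
            -(((ρ ⟨_, hyΓ⟩ : Matrix (Fin n) (Fin n) O) - 1) *
              (ρ ⟨g j, hgΓ⟩ : Matrix (Fin n) (Fin n) O) ^ N j) := by
          rw [hxy, map_mul, map_pow, Units.val_mul, Units.val_pow_eq_pow_val, sub_mul, one_mul,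
            neg_sub]
        rw [h3, Matrix.neg_apply]
        exact Ideal.neg_mem_iff _ |>.2 (mem_mul_left hy1 a b)
      · intro a b
        rw [hx0]
        exact Submodule.zero_mem _
    rw [h1, hc.mul_pow, ← pow_mul] at h2
    have h3 : ∀ a b, (((ρ ⟨g j, hgΓ⟩ : Matrix (Fin n) (Fin n) O) - 1) ^ (P * n)) a b ∈
        maximalIdeal O ^ (t * (P * n)) := by
      intro a b
      refine Ideal.pow_le_pow_right ?_ (mem_of_mul_unit (hW.pow n) h2 a b)
      calc t * (P * n) = (t * n) * P := by ring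
        _ ≤ j * N j := Nat.mul_le_mul (by omega) hP2
    have h4 := hval O n _ t (P * n) (Nat.mul_pos hP1 hn) h3
    -- comparison of `γ` and `g j`
    refine sub_one_pow_congr (Y := (ρ ⟨g j, hgΓ⟩ : Matrix (Fin n) (Fin n) O)) ?_ n h4
    intro a b
    have h5 : (ρ ⟨γ, hγΓ⟩ : Matrix (Fin n) (Fin n) O) - ρ ⟨g j, hgΓ⟩ =
        -((ρ ⟨γ, hγΓ⟩ : Matrix (Fin n) (Fin n) O) * ((ρ ⟨_, hdΓ⟩ : Matrix (Fin n) (Fin n) O) - 1)) := by
      rw [hgd, map_mul, Units.val_mul, mul_sub, mul_one, neg_sub]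
    rw [h5, Matrix.neg_apply, Matrix.mul_apply]
    exact Ideal.neg_mem_iff _ |>.2 (Ideal.sum_mem _ fun k _ => Ideal.mul_mem_left _ _ (hd1 k b))
  ext a b
  have h2 : (((ρ ⟨γ, hγΓ⟩ : Matrix (Fin n) (Fin n) O) - 1) ^ n) a b ∈
      ⨅ i : ℕ, maximalIdeal O ^ i := by
    rw [Ideal.mem_iInf]
    intro i
    exact Ideal.pow_le_pow_right (le_max_left _ _) (key (max i 1) (le_max_right _ _) a b)
  rw [Ideal.iInf_pow_eq_bot_of_isLocalRing _ (maximalIdeal.isMaximal O).ne_top] at h2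
  exact h2

end

end Pool.Agent.Y802.TS
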