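import Pool.Agent.Y802.TS.Mat

/-! Products of the matrices `c X - 1` and their powers. -/

set_option autoImplicit false

open Matrix IsLocalRing Finset

namespace Pool.Agent.Y802.TS

section gen

variable {A : Type*} [CommRing A] {n : ℕ}

/-- the product of the matrices `c X - 1` -/
def Pr (cs : List A) (X : Matrix (Fin n) (Fin n) A) : Matrix (Fin n) (Fin n) A :=
  (cs.map fun c => c • X - 1).prod

theorem Pr_nil (X : Matrix (Fin n) (Fin n) A) : Pr [] X = 1 := rfl

theorem Pr_cons (c : A) (cs : List A) (X : Matrix (Fin n) (Fin n) A) :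
    Pr (c :: cs) X = (c • X - 1) * Pr cs X := by
  unfold Pr
  rw [List.map_cons, List.prod_cons]

theorem comm_one_sub {X W : Matrix (Fin n) (Fin n) A} (h : Commute X W) (c : A) :
    Commute (c • X - 1) W :=
  (h.smul_left c).sub_left (Commute.one_left W)

theorem comm_Pr {X W : Matrix (Fin n) (Fin n) A} (h : Commute X W) (cs : List A) :
    Commute (Pr cs X) W := by
  induction cs with
  | nil => exact Commute.one_left W
  | cons c cs ih =>
    rw [Pr_cons]
    exact (comm_one_sub h c).mul_left ih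

theorem Pr_map {B : Type*} [CommRing B] (f : A →+* B) (cs : List A) (X : Matrix (Fin n) (Fin n) A) :
    f.mapMatrix (Pr cs X) = Pr (cs.map f) (f.mapMatrix X) := by
  induction cs with
  | nil => rw [Pr_nil, List.map_nil, Pr_nil, map_one]
  | cons c cs ih =>
    rw [Pr_cons, List.map_cons, Pr_cons, map_mul, ih, map_sub, map_one]
    congr 2
    ext i j
    simp [RingHom.mapMatrix_apply, Matrix.map_apply, Matrix.smul_apply]

end gen

variable {A : Type*} [CommRing A] [IsLocalRing A] {n : ℕ} {p : ℕ}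

/-- `M = 1 + p Y`, where the entries of `Y` lie in the maximal ideal and `Y` commutes with `X` -/
def DX (p : ℕ) (X M : Matrix (Fin n) (Fin n) A) : Prop :=
  ∃ Y : Matrix (Fin n) (Fin n) A, (∀ i j, Y i j ∈ maximalIdeal A) ∧ Commute Y X ∧
    M = 1 + (p : A) • Y

theorem DX.one (X : Matrix (Fin n) (Fin n) A) : DX p X 1 :=
  ⟨0, fun _ _ => by simp, Commute.zero_left X, by simp⟩

theorem DX.mul {X M M' : Matrix (Fin n) (Fin n) A} (h : DX p X M) (h' : DX p X M') :
    DX p X (M * M') := by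
  obtain ⟨Y, hY, hc, rfl⟩ := h
  obtain ⟨Y', hY', hc', rfl⟩ := h'
  refine ⟨Y * (1 + (p : A) • Y') + Y', fun i j => ?_, ?_, ?_⟩
  · rw [Matrix.add_apply]
    exact Ideal.add_mem _ (mem_mul_left hY i j) (hY' i j)
  · exact (hc.mul_left ((Commute.one_left X).add_left (hc'.smul_left _))).add_left hc'
  · rw [add_mul, one_mul, smul_mul_assoc, smul_add]
    abel

theorem DX.pow {X M : Matrix (Fin n) (Fin n) A} (h : DX p X M) (k : ℕ) : DX p X (M ^ k) := by
  induction k with
  | zero => rw [pow_zero]; exact DX.one X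
  | succ k ih => rw [pow_succ]; exact ih.mul h

theorem DX.geom {X M : Matrix (Fin n) (Fin n) A} (h : DX p X M) (k : ℕ) :
    ∃ Y : Matrix (Fin n) (Fin n) A, (∀ i j, Y i j ∈ maximalIdeal A) ∧ Commute Y X ∧
      ∑ i ∈ range k, M ^ i = (k : A) • (1 : Matrix (Fin n) (Fin n) A) + (p : A) • Y := by
  induction k with
  | zero => exact ⟨0, fun _ _ => by simp, Commute.zero_left X, by simp⟩
  | succ k ih =>
    obtain ⟨Y, hY, hc, h1⟩ := ih
    obtain ⟨Z, hZ, hc', h2⟩ := h.pow k
    refine ⟨Y + Z, fun i j => Ideal.add_mem _ (hY i j) (hZ i j), hc.add_left hc', ?_⟩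
    rw [sum_range_succ, h1, h2, smul_add, Nat.cast_succ, add_smul, one_smul]
    abel

/-- the power lemma, with a commuting factor -/
theorem pow_comm (hp : p.Prime) (hpA : (p : A) ∈ maximalIdeal A) {X M : Matrix (Fin n) (Fin n) A}
    (h : DX p X M) (N : ℕ) (hN : N ≠ 0) :
    ∃ W : Matrix (Fin n) (Fin n) A, IsUnit W ∧ Commute W X ∧
      M ^ N - 1 = (p : A) ^ (padicValNat p N) • ((M - 1) * W) := by
  induction N using Nat.strong_induction_on with
  | _ N ih =>
    by_cases hpN : p ∣ N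
    · obtain ⟨N', rfl⟩ := hpN
      have hN' : N' ≠ 0 := fun h0 => hN (by rw [h0, mul_zero])
      have hlt : N' < p * N' := by
        have := hp.two_le
        have : 0 < N' := Nat.pos_of_ne_zero hN'
        nlinarith
      obtain ⟨W, hW, hWc, h1⟩ := ih N' hlt hN'
      obtain ⟨Y, hY, hYc, h2⟩ := (h.pow N').geom p
      have hU : IsUnit ((1 : A) • (1 : Matrix (Fin n) (Fin n) A) + Y) := isUnit_of_add isUnit_one hY
      refine ⟨W * ((1 : A) • (1 : Matrix (Fin n) (Fin n) A) + Y), hW.mul hU,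
        hWc.mul_left (((Commute.one_left X).smul_left _).add_left hYc), ?_⟩
      have h3 : M ^ (p * N') - 1 = (M ^ N' - 1) * ∑ i ∈ range p, (M ^ N') ^ i := by
        rw [mul_geom_sum, ← pow_mul, mul_comm N' p]
      have hf : Fact p.Prime := ⟨hp⟩
      rw [h3, h1, h2, padicValNat.mul hp.ne_zero hN', padicValNat_self, pow_add, pow_one, one_smul]
      rw [smul_mul_assoc, mul_assoc, mul_comm (p : A), mul_smul, ← smul_add, mul_smul_comm,
        mul_smul_comm]
    · obtain ⟨Y, hY, hYc, h2⟩ := h.geom N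
      have hu : IsUnit ((N : ℕ) : A) := by
        by_contra hu
        have h3 : ((N : ℕ) : A) ∈ maximalIdeal A := (mem_maximalIdeal _).2 hu
        have hcop : IsCoprime (p : ℤ) (N : ℤ) := by
          rw [Nat.isCoprime_iff_coprime]
          exact (Nat.Prime.coprime_iff_not_dvd hp).2 hpN
        obtain ⟨a, b, hab⟩ := hcop
        have h4 : (1 : A) = (a : A) * (p : A) + (b : A) * (N : A) := by
          have := congrArg (fun z : ℤ => (z : A)) hab
          push_cast at this
          exact this.symm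
        have h5 : (1 : A) ∈ maximalIdeal A := by
          rw [h4]
          exact Ideal.add_mem _ (Ideal.mul_mem_left _ _ hpA) (Ideal.mul_mem_left _ _ h3)
        exact (Ideal.ne_top_iff_one _).1 (maximalIdeal.isMaximal A).ne_top h5
      refine ⟨∑ i ∈ range N, M ^ i, ?_, ?_, ?_⟩
      · rw [h2]
        exact isUnit_of_add hu fun i j => Ideal.mul_mem_left _ _ (hY i j)
      · rw [h2]
        exact ((Commute.one_left X).smul_left _).add_left (hYc.smul_left _)
      · rw [mul_geom_sum, padicValNat.eq_zero_of_not_dvd hpN, pow_zero, one_smul]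

/-- the product of the powers -/
theorem Pr_pow (hp : p.Prime) (hpA : (p : A) ∈ maximalIdeal A) (cs : List A)
    {X : Matrix (Fin n) (Fin n) A} (h : ∀ c ∈ cs, DX p X (c • X)) (N : ℕ) (hN : N ≠ 0) :
    ∃ W : Matrix (Fin n) (Fin n) A, IsUnit W ∧ Commute W X ∧
      Pr (cs.map fun c => c ^ N) (X ^ N) =
        (p : A) ^ (padicValNat p N * cs.length) • (Pr cs X * W) := by
  induction cs with
  | nil => exact ⟨1, isUnit_one, Commute.one_left X, by simp [Pr_nil]⟩
  | cons c cs ih =>
    obtain ⟨W, hW, hWc, h1⟩ := ih fun c hc => h c (List.mem_cons_of_mem _ hc)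
    obtain ⟨W', hW', hWc', h2⟩ := pow_comm hp hpA (h c List.mem_cons_self) N hN
    refine ⟨W' * W, hW'.mul hW, hWc'.mul_left hWc, ?_⟩
    rw [List.map_cons, Pr_cons, h1, ← smul_pow, h2, Pr_cons, smul_mul_smul_comm, ← pow_add,
      List.length_cons, mul_add, mul_one, add_comm]
    congr 1
    have h3 : Commute (Pr cs X) W' := comm_Pr hWc'.symm cs
    calc (c • X - 1) * W' * (Pr cs X * W) = (c • X - 1) * (W' * Pr cs X) * W := by
          simp only [mul_assoc]
      _ = (c • X - 1) * (Pr cs X * W') * W := by rw [h3.eq]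
      _ = _ := by simp only [mul_assoc]

theorem Pr_pow_pow (hp : p.Prime) (hpA : (p : A) ∈ maximalIdeal A) (cs : List A)
    {X : Matrix (Fin n) (Fin n) A} (h : ∀ c ∈ cs, DX p X (c • X)) (N : ℕ) (hN : N ≠ 0) (r : ℕ) :
    ∃ W : Matrix (Fin n) (Fin n) A, IsUnit W ∧
      Pr (cs.map fun c => c ^ N) (X ^ N) ^ r =
        (p : A) ^ (padicValNat p N * cs.length * r) • (Pr cs X ^ r * W) := by
  obtain ⟨W, hW, hWc, h1⟩ := Pr_pow hp hpA cs h N hN
  refine ⟨W ^ r, hW.pow r, ?_⟩
  have h2 : Commute (Pr cs X) W := comm_Pr hWc.symm cs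
  rw [h1, smul_pow, ← pow_mul, h2.mul_pow]

omit [IsLocalRing A] in
theorem reg_pow (hreg : ∀ a : A, (p : A) * a = 0 → a = 0) (k : ℕ) (a b : A)
    (hab : (p : A) ^ k * a = (p : A) ^ k * b) : a = b := by
  induction k with
  | zero => simpa using hab
  | succ k ih =>
    rw [pow_succ', mul_assoc, mul_assoc] at hab
    apply ih
    rw [← sub_eq_zero]
    apply hreg
    rw [mul_sub, hab, sub_self]

/-- the approximation lemma -/
theorem Pr_depth (hp : p.Prime) (hpA : (p : A) ∈ maximalIdeal A)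
    (hreg : ∀ a : A, (p : A) * a = 0 → a = 0) (cs : List A)
    {X : Matrix (Fin n) (Fin n) A} (h : ∀ c ∈ cs, DX p X (c • X)) (N : ℕ) (hN : N ≠ 0) (r : ℕ)
    (J : Ideal A) (Z : Matrix (Fin n) (Fin n) A) (hZ : ∀ i j, Z i j ∈ J)
    (hXZ : Pr (cs.map fun c => c ^ N) (X ^ N) ^ r = (p : A) ^ (padicValNat p N * cs.length * r) • Z)
    (i j : Fin n) : (Pr cs X ^ r) i j ∈ J := by
  obtain ⟨W, hW, h1⟩ := Pr_pow_pow hp hpA cs h N hN r
  have h2 : Pr cs X ^ r * W = Z := by
    ext i j
    apply reg_pow hreg (padicValNat p N * cs.length * r)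
    exact congrFun (congrFun (h1.symm.trans hXZ) i) j
  obtain ⟨u, rfl⟩ := hW
  have h4 : Pr cs X ^ r = Z * ((u⁻¹ : (Matrix (Fin n) (Fin n) A)ˣ) : Matrix (Fin n) (Fin n) A) := by
    rw [← h2, mul_assoc, Units.mul_inv, mul_one]
  rw [h4]
  exact mem_mul_left hZ i j

omit [IsLocalRing A] in
/-- congruent matrices -/
theorem Pr_congr (J : Ideal A) {ι : Type*} (M : List ι) (c c' : ι → A) (hc : ∀ m, c m - c' m ∈ J)
    {X X' : Matrix (Fin n) (Fin n) A} (hX : ∀ i j, X i j - X' i j ∈ J) (r : ℕ) (i j : Fin n) :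
    (Pr (M.map c) X ^ r) i j - (Pr (M.map c') X' ^ r) i j ∈ J := by
  have h1 : (Ideal.Quotient.mk J).mapMatrix X = (Ideal.Quotient.mk J).mapMatrix X' := by
    ext i j
    rw [RingHom.mapMatrix_apply, RingHom.mapMatrix_apply, Matrix.map_apply, Matrix.map_apply]
    exact Ideal.Quotient.eq.2 (hX i j)
  have h2 : (M.map c).map (Ideal.Quotient.mk J) = (M.map c').map (Ideal.Quotient.mk J) := by
    rw [List.map_map, List.map_map]
    apply List.map_congr_left
    intro m _
    exact Ideal.Quotient.eq.2 (hc m)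
  have h3 : (Ideal.Quotient.mk J).mapMatrix (Pr (M.map c) X ^ r) =
      (Ideal.Quotient.mk J).mapMatrix (Pr (M.map c') X' ^ r) := by
    rw [map_pow, map_pow, Pr_map, Pr_map, h1, h2]
  have h4 := congrFun (congrFun h3 i) j
  rw [RingHom.mapMatrix_apply, RingHom.mapMatrix_apply, Matrix.map_apply, Matrix.map_apply] at h4
  exact Ideal.Quotient.eq.1 h4

end Pool.Agent.Y802.TS
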