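import Mathlib

/-! Powers of matrices which are congruent to `1` modulo `p` times the maximal ideal. -/

set_option autoImplicit false

open Matrix IsLocalRing Finset

namespace Pool.Agent.Y802.TS

variable {A : Type*} [CommRing A] [IsLocalRing A] {n : ℕ} {p : ℕ}

/-- `M = 1 + p Y`, where the entries of `Y` lie in the maximal ideal -/
def Dp (p : ℕ) (M : Matrix (Fin n) (Fin n) A) : Prop :=
  ∃ Y : Matrix (Fin n) (Fin n) A, (∀ i j, Y i j ∈ maximalIdeal A) ∧ M = 1 + (p : A) • Y

omit [IsLocalRing A] in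
theorem mem_mul_left {I : Ideal A} {X Y : Matrix (Fin n) (Fin n) A} (hX : ∀ i j, X i j ∈ I)
    (i j : Fin n) : (X * Y) i j ∈ I := by
  rw [Matrix.mul_apply]
  exact I.sum_mem fun k _ => I.mul_mem_right _ (hX i k)

theorem Dp.one : Dp p (1 : Matrix (Fin n) (Fin n) A) :=
  ⟨0, fun _ _ => by simp, by simp⟩

theorem Dp.mul {M M' : Matrix (Fin n) (Fin n) A} (h : Dp p M) (h' : Dp p M') : Dp p (M * M') := by
  obtain ⟨Y, hY, rfl⟩ := h
  obtain ⟨Y', hY', rfl⟩ := h'
  refine ⟨Y * (1 + (p : A) • Y') + Y', fun i j => ?_, ?_⟩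
  · rw [Matrix.add_apply]
    exact Ideal.add_mem _ (mem_mul_left hY i j) (hY' i j)
  · rw [add_mul, one_mul, smul_mul_assoc, smul_add]
    abel

theorem Dp.pow {M : Matrix (Fin n) (Fin n) A} (h : Dp p M) (k : ℕ) : Dp p (M ^ k) := by
  induction k with
  | zero => rw [pow_zero]; exact Dp.one
  | succ k ih => rw [pow_succ]; exact ih.mul h

theorem isUnit_of_add {c : A} (hc : IsUnit c) {Y : Matrix (Fin n) (Fin n) A}
    (hY : ∀ i j, Y i j ∈ maximalIdeal A) : IsUnit (c • (1 : Matrix (Fin n) (Fin n) A) + Y) := by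
  rw [Matrix.isUnit_iff_isUnit_det]
  apply isUnit_of_map_unit (residue A)
  have h1 : residue A (c • (1 : Matrix (Fin n) (Fin n) A) + Y).det =
      ((residue A c) • (1 : Matrix (Fin n) (Fin n) (ResidueField A))).det := by
    rw [RingHom.map_det]
    congr 1
    ext i j
    have h2 : residue A (Y i j) = 0 := (residue_eq_zero_iff _).2 (hY i j)
    rw [RingHom.mapMatrix_apply, Matrix.map_apply, Matrix.add_apply, map_add, h2, add_zero,
      Matrix.smul_apply, Matrix.smul_apply, Matrix.one_apply, Matrix.one_apply]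
    split_ifs <;> simp
  rw [h1, Matrix.det_smul, Matrix.det_one, mul_one]
  exact (hc.map (residue A)).pow _

theorem Dp.geom {M : Matrix (Fin n) (Fin n) A} (h : Dp p M) (k : ℕ) :
    ∃ Y : Matrix (Fin n) (Fin n) A, (∀ i j, Y i j ∈ maximalIdeal A) ∧
      ∑ i ∈ range k, M ^ i = (k : A) • (1 : Matrix (Fin n) (Fin n) A) + (p : A) • Y := by
  induction k with
  | zero => exact ⟨0, fun _ _ => by simp, by simp⟩
  | succ k ih =>
    obtain ⟨Y, hY, h1⟩ := ih
    obtain ⟨Z, hZ, h2⟩ := h.pow k
    refine ⟨Y + Z, fun i j => Ideal.add_mem _ (hY i j) (hZ i j), ?_⟩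
    rw [sum_range_succ, h1, h2, smul_add, Nat.cast_succ, add_smul, one_smul]
    abel

/-- the power lemma -/
theorem pow_lemma (hp : p.Prime) (hpA : (p : A) ∈ maximalIdeal A) {M : Matrix (Fin n) (Fin n) A}
    (h : Dp p M) (N : ℕ) (hN : N ≠ 0) :
    ∃ W : Matrix (Fin n) (Fin n) A, IsUnit W ∧
      M ^ N - 1 = (p : A) ^ (padicValNat p N) • ((M - 1) * W) := by
  induction N using Nat.strong_induction_on with
  | _ N ih =>
    by_cases hpN : p ∣ N
    · obtain ⟨N', rfl⟩ := hpN
      have hN' : N' ≠ 0 := fun h0 => hN (by rw [h0, mul_zero])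
      have hlt : N' < p * N' := by
        have := hp.two_le
        have : 0 < N' := Nat.pos_of_ne_zero hN'
        nlinarith
      obtain ⟨W, hW, h1⟩ := ih N' hlt hN'
      obtain ⟨Y, hY, h2⟩ := (h.pow N').geom p
      have hU : IsUnit ((1 : A) • (1 : Matrix (Fin n) (Fin n) A) + Y) := isUnit_of_add isUnit_one hY
      refine ⟨W * ((1 : A) • (1 : Matrix (Fin n) (Fin n) A) + Y), hW.mul hU, ?_⟩
      have h3 : M ^ (p * N') - 1 = (M ^ N' - 1) * ∑ i ∈ range p, (M ^ N') ^ i := by
        rw [mul_geom_sum, ← pow_mul, mul_comm N' p]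
      have hf : Fact p.Prime := ⟨hp⟩
      rw [h3, h1, h2, padicValNat.mul hp.ne_zero hN', padicValNat_self, pow_add, pow_one, one_smul]
      rw [smul_mul_assoc, mul_assoc, mul_comm (p : A), mul_smul, ← smul_add, mul_smul_comm,
        mul_smul_comm]
    · obtain ⟨Y, hY, h2⟩ := h.geom N
      have hu : IsUnit ((N : ℕ) : A) := by
        by_contra hu
        have h3 : ((N : ℕ) : A) ∈ maximalIdeal A := (mem_maximalIdeal _).2 hu
        have hcop : IsCoprime (p : ℤ) (N : ℤ) := by
          rw [Nat.isCoprime_iff_coprime]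
          exact (Nat.Prime.coprime_iff_not_dvd hp).2 hpN
        obtain ⟨a, b, hab⟩ := hcop
        have h4 : (1 : A) = (a : A) * (p : A) + (b : A) * (N : A) := by
          have := congrArg (fun z : ℤ => (z : A)) hab
          push_cast at this
          exact this.symm
        have h5 : (1 : A) ∈ maximalIdeal A := by
          rw [h4]
          exact Ideal.add_mem _ (Ideal.mul_mem_left _ _ hpA) (Ideal.mul_mem_left _ _ h3)
        exact (Ideal.ne_top_iff_one _).1 (maximalIdeal.isMaximal A).ne_top h5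
      refine ⟨∑ i ∈ range N, M ^ i, ?_, ?_⟩
      · rw [h2]
        exact isUnit_of_add hu fun i j => Ideal.mul_mem_left _ _ (hY i j)
      · rw [mul_geom_sum, padicValNat.eq_zero_of_not_dvd hpN, pow_zero, one_smul]

/-- the depth of an element is determined by the depth of its powers -/
theorem depth_lemma (hp : p.Prime) (hpA : (p : A) ∈ maximalIdeal A)
    (hreg : ∀ a : A, (p : A) * a = 0 → a = 0)
    {M : Matrix (Fin n) (Fin n) A} (h : Dp p M) (N : ℕ) (hN : N ≠ 0) (J : Ideal A)
    (X : Matrix (Fin n) (Fin n) A) (hX : ∀ i j, X i j ∈ J)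
    (hMX : M ^ N - 1 = (p : A) ^ (padicValNat p N) • X) (i j : Fin n) : (M - 1) i j ∈ J := by
  obtain ⟨W, hW, h1⟩ := pow_lemma hp hpA h N hN
  have hregk : ∀ (k : ℕ) (a b : A), (p : A) ^ k * a = (p : A) ^ k * b → a = b := by
    intro k
    induction k with
    | zero => intro a b hab; simpa using hab
    | succ k ih =>
      intro a b hab
      rw [pow_succ', mul_assoc, mul_assoc] at hab
      apply ih
      rw [← sub_eq_zero]
      apply hreg
      rw [mul_sub, hab, sub_self]
  have h2 : (M - 1) * W = X := by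
    ext i j
    apply hregk (padicValNat p N)
    have h3 := congrFun (congrFun (h1.symm.trans hMX) i) j
    exact h3
  obtain ⟨u, rfl⟩ := hW
  have h4 : M - 1 = X * ((u⁻¹ : (Matrix (Fin n) (Fin n) A)ˣ) : Matrix (Fin n) (Fin n) A) := by
    rw [← h2, mul_assoc, Units.mul_inv, mul_one]
  rw [h4]
  exact mem_mul_left hX i j

end Pool.Agent.Y802.TS
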