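import Pool.Agent.Y800.Frob2
import Pool.Agent.Y802.TS.Mat

/-! A sequence of Frobenius elements which detects all infinite finitely ramified representations. -/

set_option autoImplicit false

open Matrix IsLocalRing Finset NumberField Topology

namespace Pool.Agent.Y802.TS

attribute [local instance 10] DivisionRing.toRatAlgebra

open Pool.Agent.Y800

/-- `x` is a geometric Frobenius element at some maximal ideal above `q` -/
def Fr (q : ℕ) (x : GQ) : Prop := ∃ P : Ideal ZBar, P.IsMaximal ∧ (q : ZBar) ∈ P ∧ IsGeomFrob q P x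

theorem countable_QBar : Countable (AlgebraicClosure ℚ) := by
  have hal : Algebra.IsAlgebraic ℚ (AlgebraicClosure ℚ) := AlgebraicClosure.isAlgebraic ℚ
  have h := Algebra.IsAlgebraic.cardinalMk_le_max ℚ (AlgebraicClosure ℚ)
  have h2 : Cardinal.mk (AlgebraicClosure ℚ) ≤ Cardinal.aleph0 := by
    refine h.trans ?_
    rw [max_le_iff]
    exact ⟨Cardinal.mk_le_aleph0, le_rfl⟩
  exact Cardinal.mk_le_aleph0_iff.1 h2

/-- an open subgroup contains the stabiliser of an element -/
theorem exists_stab (U : Subgroup GQ) (hU : IsOpen (U : Set GQ)) :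
    ∃ x : AlgebraicClosure ℚ, ∀ σ : GQ, σ x = x → σ ∈ U := by
  have h1 : (U : Set GQ) ∈ 𝓝 (1 : GQ) := hU.mem_nhds U.one_mem
  rw [krullTopology_mem_nhds_one_iff] at h1
  obtain ⟨E, hE, hEU⟩ := h1
  obtain ⟨y, hy⟩ := Field.exists_primitive_element ℚ E
  refine ⟨(y : AlgebraicClosure ℚ), fun σ hσ => hEU ?_⟩
  rw [SetLike.mem_coe, IntermediateField.mem_fixingSubgroup_iff]
  intro z hz
  have h2 : (⟨z, hz⟩ : E) ∈ IntermediateField.adjoin ℚ {y} := by rw [hy]; trivial
  have h3 : IntermediateField.adjoin ℚ {y} ≤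
      (AlgHom.equalizer ((AlgEquiv.toAlgHom σ).comp E.val)
        E.val).toIntermediateField (by
          intro a ha
          rw [AlgHom.mem_equalizer] at ha ⊢
          rw [map_inv₀, map_inv₀, ha]) := by
    rw [IntermediateField.adjoin_le_iff, Set.singleton_subset_iff]
    exact hσ
  exact h3 h2

/-- a dense sequence -/
theorem exists_dense : ∃ g : ℕ → GQ, ∀ U : Subgroup GQ, IsOpen (U : Set GQ) → ∀ (γ : GQ) (j0 : ℕ),
    ∃ j, j0 ≤ j ∧ γ⁻¹ * g j ∈ U := by
  classical
  have := countable_QBar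
  let I := AlgebraicClosure ℚ × AlgebraicClosure ℚ × ℕ
  obtain ⟨e, he⟩ := exists_surjective_nat I
  let g : ℕ → GQ := fun j => if h : ∃ σ : GQ, σ (e j).1 = (e j).2.1 then h.choose else 1
  have hg : ∀ j, ∀ σ : GQ, σ (e j).1 = (e j).2.1 → g j (e j).1 = (e j).2.1 := by
    intro j σ hσ
    have h : ∃ σ : GQ, σ (e j).1 = (e j).2.1 := ⟨σ, hσ⟩
    simp only [g, dif_pos h]
    exact h.choose_spec
  refine ⟨g, fun U hU γ j0 => ?_⟩
  obtain ⟨x, hx⟩ := exists_stab U hU
  obtain ⟨m, hm⟩ : ∃ m : ℕ, ∀ j < j0, e j ≠ (x, γ x, m) := by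
    by_contra hcon
    push Not at hcon
    choose f hf1 hf2 using hcon
    have hinj : Function.Injective (fun m => (⟨f m, hf1 m⟩ : Fin j0)) := by
      intro a b hab
      have h1 : f a = f b := congrArg (fun t : Fin j0 => t.1) hab
      have h2 := hf2 a
      rw [h1, hf2 b] at h2
      exact (congrArg (fun t : I => t.2.2) h2).symm
    exact not_injective_infinite_finite _ hinj
  obtain ⟨j, hj⟩ := he (x, γ x, m)
  refine ⟨j, ?_, ?_⟩
  · by_contra hlt
    exact hm j (not_le.1 hlt) hj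
  · apply hx
    have h1 := hg j γ (by rw [hj])
    rw [hj] at h1
    rw [AlgEquiv.mul_apply, h1]
    exact AlgEquiv.symm_apply_apply γ x

/-- the bound for the index -/
def Ej (j N : ℕ) : ℕ := 2 ^ (2 ^ (j * j * N))

theorem growth (c : ℕ) : ∃ j0 : ℕ, ∀ j ≥ j0, ∀ N ≥ 1, c * c ^ (j * N * c) ≤ Ej j N := by
  refine ⟨2 * c + 2, fun j hj N hN => ?_⟩
  have h1 : c ≤ 2 ^ c := Nat.lt_two_pow_self.le
  have h2 : c * c ^ (j * N * c) ≤ 2 ^ (c + c * (j * N * c)) := by
    rw [pow_add, pow_mul 2 c]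
    exact Nat.mul_le_mul h1 (Nat.pow_le_pow_left h1 _)
  refine h2.trans (Nat.pow_le_pow_right (by norm_num) ?_)
  have hjN : 1 ≤ j * N := Nat.mul_pos (by omega) hN
  have h3 : c + c * (j * N * c) ≤ 2 ^ (2 * c + 1) * (j * N) := by
    have h4 : c * c ≤ 2 ^ (2 * c) := by
      calc c * c ≤ 2 ^ c * 2 ^ c := Nat.mul_le_mul h1 h1
        _ = 2 ^ (2 * c) := by rw [← pow_add, two_mul]
    have h5 : c ≤ 2 ^ (2 * c) := h1.trans (Nat.pow_le_pow_right (by norm_num) (by omega))
    calc c + c * (j * N * c) = c + c * c * (j * N) := by ring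
      _ ≤ 2 ^ (2 * c) * (j * N) + 2 ^ (2 * c) * (j * N) := by
        apply Nat.add_le_add
        · calc c ≤ 2 ^ (2 * c) := h5
            _ = 2 ^ (2 * c) * 1 := (mul_one _).symm
            _ ≤ _ := Nat.mul_le_mul_left _ hjN
        · exact Nat.mul_le_mul_right _ h4
      _ = 2 ^ (2 * c + 1) * (j * N) := by ring
  have h6 : j * N ≤ 2 ^ (j * N) := Nat.lt_two_pow_self.le
  calc _ ≤ 2 ^ (2 * c + 1) * (j * N) := h3
    _ ≤ 2 ^ (2 * c + 1) * 2 ^ (j * N) := Nat.mul_le_mul_left _ h6
    _ = 2 ^ (2 * c + 1 + j * N) := by rw [← pow_add]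
    _ ≤ 2 ^ (j * j * N) := by
      apply Nat.pow_le_pow_right (by norm_num)
      have h7 : j * j * N = j * N + (j - 1) * (j * N) := by
        obtain ⟨k, rfl⟩ : ∃ k, j = k + 1 := ⟨j - 1, by omega⟩
        simp only [Nat.add_sub_cancel]
        ring
      rw [h7]
      have h8 : 2 * c + 1 ≤ (j - 1) * (j * N) := by
        calc 2 * c + 1 ≤ (j - 1) * 1 := by omega
          _ ≤ _ := Nat.mul_le_mul_left _ hjN
      omega

/-- the open normal subgroup of small index subgroups unramified outside small primes -/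
noncomputable def Hj (j N : ℕ) : Subgroup GQ :=
  sInf {H : Subgroup GQ | H.Normal ∧ IsOpen (H : Set GQ) ∧ H.index ≤ (Ej j N).factorial ∧
      ∀ p : ℕ, p.Prime → p ∉ (Finset.range j).filter Nat.Prime →
        ∀ P : Ideal ZBar, P.IsMaximal → (p : ZBar) ∈ P → ∀ τ : GQ, InInertia P τ → τ ∈ H}

theorem Hj_open (j N : ℕ) : IsOpen (Hj j N : Set GQ) := by
  have hfin := HM.finite_subgroups ((Finset.range j).filter Nat.Prime)
    (fun p hp => (Finset.mem_filter.1 hp).2) ((Ej j N).factorial)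
  unfold Hj
  rw [Subgroup.coe_sInf]
  exact hfin.isOpen_biInter fun H hH => hH.2.1

theorem Hj_normal (j N : ℕ) : (Hj j N).Normal := by
  refine ⟨fun x hx y => ?_⟩
  rw [Hj, Subgroup.mem_sInf] at hx ⊢
  intro H hH
  exact hH.1.conj_mem x (hx H hH) y

theorem Hj_le {j N : ℕ} {H : Subgroup GQ} (h1 : H.Normal) (h2 : IsOpen (H : Set GQ))
    (h3 : H.index ≤ (Ej j N).factorial)
    (h4 : ∀ p : ℕ, p.Prime → p ∉ (Finset.range j).filter Nat.Prime →
        ∀ P : Ideal ZBar, P.IsMaximal → (p : ZBar) ∈ P → ∀ τ : GQ, InInertia P τ → τ ∈ H) :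
    Hj j N ≤ H := sInf_le ⟨h1, h2, h3, h4⟩

/-- the normal core of a subgroup -/
theorem core_index {G : Type*} [Group G] (H : Subgroup G) (hH : H.index ≠ 0) :
    H.normalCore.index ≤ H.index.factorial := by
  have : H.FiniteIndex := ⟨hH⟩
  have hfin : Finite (G ⧸ H) := inferInstance
  rw [Subgroup.normalCore_eq_ker, Subgroup.index_ker]
  classical
  have := Fintype.ofFinite (G ⧸ H)
  calc Nat.card (MulAction.toPermHom G (G ⧸ H)).range ≤ Nat.card (Equiv.Perm (G ⧸ H)) :=
        Subgroup.card_le_card_group _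
    _ = H.index.factorial := by
      rw [Nat.card_perm]
      rfl

theorem core_open {H : Subgroup GQ} (hH : IsOpen (H : Set GQ)) :
    IsOpen (H.normalCore : Set GQ) := by
  have hfin : H.FiniteIndex := by
    have := Subgroup.quotient_finite_of_isOpen _ hH
    exact Subgroup.finiteIndex_of_finite_quotient
  have hclosed : IsClosed (H.normalCore : Set GQ) := by
    have h1 : (H.normalCore : Set GQ) = ⋂ b : GQ, {a | b * a * b⁻¹ ∈ H} := by
      ext a
      simp only [SetLike.mem_coe, Set.mem_iInter, Set.mem_ofPred_eq]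
      rfl
    rw [h1]
    refine isClosed_iInter fun b => ?_
    have hc : IsClosed (H : Set GQ) := Subgroup.isClosed_of_isOpen _ hH
    exact hc.preimage ((continuous_const.mul continuous_id).mul continuous_const)
  exact Subgroup.isOpen_of_isClosed_of_finiteIndex _ hclosed

end Pool.Agent.Y802.TS
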