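import Pool.Agent.Y802.TS.PZero
import Pool.Agent.Y802.TS.Mat2

/-! Quasi-unipotent Frobenius elements: general coefficient rings. -/

set_option autoImplicit false

open Matrix IsLocalRing Finset NumberField Topology

namespace Pool.Agent.Y802.TS

attribute [local instance 10] DivisionRing.toRatAlgebra

open Pool.Agent.Y800

section

variable {Γ : Subgroup GQ} {A : Type*} [CommRing A] [IsLocalRing A] {n : ℕ}
  (ρ : Γ →* GL (Fin n) A)

theorem DX_of_Dp [IsDomain A] {p : ℕ} (hp0 : (p : A) ≠ 0) {M : Matrix (Fin n) (Fin n) A}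
    (h : Dp p M) : DX p M M := by
  obtain ⟨Y, hY, hM⟩ := h
  refine ⟨Y, hY, ?_, hM⟩
  have h7 : (p : A) • Y = M - 1 := by rw [hM, add_sub_cancel_left]
  have h6 : (p : A) • (Y * M) = (p : A) • (M * Y) := by
    rw [← smul_mul_assoc, ← mul_smul_comm, h7, sub_mul, mul_sub, one_mul, mul_one]
  change Y * M = M * Y
  ext a b
  have h7 := congrFun (congrFun h6 a) b
  rw [Matrix.smul_apply, Matrix.smul_apply, smul_eq_mul, smul_eq_mul] at h7
  exact mul_left_cancel₀ hp0 h7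

/-- the estimate in domains where `p` does not vanish -/
theorem est_dom [IsDomain A] [IsNoetherianRing A] {p : ℕ} (hΓ : IsOpen (Γ : Set GQ))
    (hp : p.Prime) (hp0 : (p : A) ≠ 0)
    (hpA : (p : A) ∈ maximalIdeal A) (hfin : Finite (ResidueField A))
    (hopen : ∀ i, IsOpen (Kj ρ (maximalIdeal A ^ i) : Set GQ)) (S : Finset ℕ) (hS : UnrOut ρ S)
    (g : ℕ → GQ) (hg : ∀ U : Subgroup GQ, IsOpen (U : Set GQ) → ∀ (γ : GQ) (j0 : ℕ),
      ∃ j, j0 ≤ j ∧ γ⁻¹ * g j ∈ U)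
    (N : ℕ → ℕ) (hN : ∀ j, 1 ≤ N j) (x : ℕ → GQ)
    (hx : ∀ j, x j * (g j ^ N j)⁻¹ ∈ Hj j (N j)) (j1 : ℕ)
    (hfrob : ∀ j ≥ j1, ∀ h : x j ∈ Γ, ∃ a : ℕ, a ≠ 0 ∧ ∃ r : ℕ,
      ((ρ ⟨x j, h⟩ : Matrix (Fin n) (Fin n) A) ^ a - 1) ^ r = 0)
    (hDp : ∀ γ : Γ, Dp p (ρ γ : Matrix (Fin n) (Fin n) A)) (γ : Γ) :
    ((ρ γ : Matrix (Fin n) (Fin n) A) - 1) ^ n = 0 := by
  have hreg : ∀ y ∈ (⊤ : Ideal A), (p : A) * y = 0 → y = 0 := fun y _ h =>
    (mul_eq_zero.1 h).resolve_left hp0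
  obtain ⟨c, hc⟩ := artin_rees (maximalIdeal A) (p : A) ⊤ hreg
  obtain ⟨j0, hj0⟩ := star ρ hΓ (fun i => maximalIdeal A ^ i)
    (fun i => ((card_bound hfin).choose_spec i).1) (hgrow_gen hfin n) hopen S hS
  have key : ∀ i, ∀ a b, (((ρ γ : Matrix (Fin n) (Fin n) A) - 1) ^ n) a b ∈
      maximalIdeal A ^ i := by
    intro i
    obtain ⟨j, hj, hgj⟩ := hg _ (hopen i) γ (max (max j0 j1) (i + c * n + 1))
    have hjj0 : j0 ≤ j := (le_max_left _ _).trans ((le_max_left _ _).trans hj)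
    have hjj1 : j1 ≤ j := (le_max_right _ _).trans ((le_max_left _ _).trans hj)
    have hji : i + c * n + 1 ≤ j := (le_max_right _ _).trans hj
    have hNj := hN j
    obtain ⟨hdΓ, hd1⟩ := (mem_Kj ρ).1 hgj
    have hgΓ : g j ∈ Γ := by
      have h2 := Γ.mul_mem γ.2 hdΓ
      rwa [mul_inv_cancel_left] at h2
    have hxg : x j * (g j ^ N j)⁻¹ ∈ Kj ρ (maximalIdeal A ^ (j * N j)) := hj0 j hjj0 _ hNj (hx j)
    obtain ⟨hyΓ, hy1⟩ := (mem_Kj ρ).1 hxg
    have hxΓ : x j ∈ Γ := by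
      have h1 := Γ.mul_mem hyΓ (Γ.pow_mem hgΓ (N j))
      rwa [inv_mul_cancel_right] at h1
    have hxy : (⟨x j, hxΓ⟩ : Γ) = ⟨_, hyΓ⟩ * (⟨g j, hgΓ⟩ : Γ) ^ N j := by
      apply Subtype.ext
      change x j = x j * (g j ^ N j)⁻¹ * g j ^ N j
      rw [inv_mul_cancel_right]
    have hgd : (⟨g j, hgΓ⟩ : Γ) = γ * ⟨_, hdΓ⟩ := by
      apply Subtype.ext
      change g j = γ * ((γ : GQ)⁻¹ * g j)
      rw [mul_inv_cancel_left]
    -- the Frobenius element
    obtain ⟨a, ha, r, hxa⟩ := hfrob j hjj1 hxΓ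
    have hx0 : ((ρ ⟨x j, hxΓ⟩ : Matrix (Fin n) (Fin n) A) - 1) ^ n = 0 := by
      obtain ⟨W, hW, hWc, h1⟩ := pow_comm hp hpA (DX_of_Dp hp0 (hDp ⟨x j, hxΓ⟩)) a ha
      apply nilp_pow
      refine ⟨r, ?_⟩
      have hc : Commute ((ρ ⟨x j, hxΓ⟩ : Matrix (Fin n) (Fin n) A) - 1) W :=
        (hWc.symm.sub_left (Commute.one_left W))
      rw [h1, _root_.smul_pow, hc.mul_pow] at hxa
      ext a' b'
      have h2 := mem_of_mul_unit (J := (⊥ : Ideal A)) (hW.pow r) (by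
        intro a'' b''
        have h3 := congrFun (congrFun hxa a'') b''
        rw [Matrix.smul_apply, smul_eq_mul] at h3
        rw [Submodule.mem_bot]
        exact (mul_eq_zero.1 h3).resolve_left (pow_ne_zero _ (pow_ne_zero _ hp0))) a' b'
      exact (Submodule.mem_bot A).1 h2
    -- comparison with the power of `g j`
    obtain ⟨W, hW, hWc, h1⟩ := pow_comm hp hpA (DX_of_Dp hp0 (hDp ⟨g j, hgΓ⟩)) (N j) (by omega)
    have hcc : Commute ((ρ ⟨g j, hgΓ⟩ : Matrix (Fin n) (Fin n) A) - 1) W :=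
        (hWc.symm.sub_left (Commute.one_left W))
    have h2 : ∀ a b, (((ρ ⟨g j, hgΓ⟩ : Matrix (Fin n) (Fin n) A) ^ N j - 1) ^ n) a b ∈
        maximalIdeal A ^ (j * N j) := by
      refine sub_one_pow_congr (Y := (ρ ⟨x j, hxΓ⟩ : Matrix (Fin n) (Fin n) A)) ?_ n ?_
      · intro a b
        have h3 : (ρ ⟨g j, hgΓ⟩ : Matrix (Fin n) (Fin n) A) ^ N j - ρ ⟨x j, hxΓ⟩ =
            -(((ρ ⟨_, hyΓ⟩ : Matrix (Fin n) (Fin n) A) - 1) *
              (ρ ⟨g j, hgΓ⟩ : Matrix (Fin n) (Fin n) A) ^ N j) := by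
          rw [hxy, map_mul, map_pow, Units.val_mul, Units.val_pow_eq_pow_val, sub_mul, one_mul,
            neg_sub]
        rw [h3, Matrix.neg_apply]
        exact Ideal.neg_mem_iff _ |>.2 (mem_mul_left hy1 a b)
      · intro a b
        rw [hx0]
        exact Submodule.zero_mem _
    rw [h1, _root_.smul_pow, hcc.mul_pow, ← pow_mul] at h2
    have hvN : padicValNat p (N j) ≤ N j := by
      have h3 : padicValNat p (N j) < N j := by
        have h4 := padicValNat_le_nat_log (p := p) (N j)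
        have h5 : Nat.log p (N j) < N j := Nat.log_lt_self _ (by omega)
        omega
      exact h3.le
    have hle : i ≤ j * N j - c * (padicValNat p (N j) * n) := by
      have h5 : c * (padicValNat p (N j) * n) ≤ (c * n) * N j := by
        calc c * (padicValNat p (N j) * n) = (c * n) * padicValNat p (N j) := by ring
          _ ≤ _ := Nat.mul_le_mul_left _ hvN
      have h6 : (i + c * n) * N j ≤ j * N j := Nat.mul_le_mul_right _ (by omega)
      have h7 : i ≤ i * N j := Nat.le_mul_of_pos_right _ hNj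
      rw [add_mul] at h6
      omega
    have h3 : ∀ a b, (((ρ ⟨g j, hgΓ⟩ : Matrix (Fin n) (Fin n) A) - 1) ^ n * W ^ n) a b ∈
        maximalIdeal A ^ i := by
      intro a b
      exact Ideal.pow_le_pow_right hle
        (artin_rees_iter hc (padicValNat p (N j) * n) (j * N j) _ trivial (h2 a b))
    have h4 := mem_of_mul_unit (hW.pow n) h3
    -- comparison of `γ` and `g j`
    refine sub_one_pow_congr (Y := (ρ ⟨g j, hgΓ⟩ : Matrix (Fin n) (Fin n) A)) ?_ n h4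
    intro a b
    have h5 : (ρ γ : Matrix (Fin n) (Fin n) A) - ρ ⟨g j, hgΓ⟩ =
        -((ρ γ : Matrix (Fin n) (Fin n) A) * ((ρ ⟨_, hdΓ⟩ : Matrix (Fin n) (Fin n) A) - 1)) := by
      rw [hgd, map_mul, Units.val_mul, mul_sub, mul_one, neg_sub]
    rw [h5, Matrix.neg_apply, Matrix.mul_apply]
    exact Ideal.neg_mem_iff _ |>.2 (Ideal.sum_mem _ fun k _ => Ideal.mul_mem_left _ _ (hd1 k b))
  ext a b
  have h2 : (((ρ γ : Matrix (Fin n) (Fin n) A) - 1) ^ n) a b ∈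
      ⨅ i : ℕ, maximalIdeal A ^ i := by
    rw [Ideal.mem_iInf]
    intro i
    exact key i a b
  rw [Ideal.iInf_pow_eq_bot_of_isLocalRing _ (maximalIdeal.isMaximal A).ne_top] at h2
  exact h2

/-- from congruences modulo `p` to congruences modulo powers of `p` -/
theorem mod_pk [IsNoetherianRing A] {p : ℕ} (hp : p.Prime)
    (hopen : ∀ i, IsOpen (Kj ρ (maximalIdeal A ^ i) : Set GQ)) (S : Finset ℕ) (hS : UnrOut ρ S)
    (U1 : Subgroup GQ) (hU1 : IsOpen (U1 : Set GQ)) (hU1Γ : U1 ≤ Γ)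
    (h1 : ∀ γ : GQ, γ ∈ U1 → ∀ h : γ ∈ Γ, ∀ a b,
      ((ρ ⟨γ, h⟩ : Matrix (Fin n) (Fin n) A) - 1) a b ∈ Ideal.span {(p : A)}) (k : ℕ) :
    ∃ U : Subgroup GQ, IsOpen (U : Set GQ) ∧ U ≤ Γ ∧
      ∀ γ : GQ, γ ∈ U → ∀ h : γ ∈ Γ,
        (ρ ⟨γ, h⟩ : Matrix (Fin n) (Fin n) A) - 1 ∈ EI n (Ideal.span {(p : A) ^ (k + 1)}) := by
  have hpf : Fact p.Prime := ⟨hp⟩
  induction k with
  | zero =>
    refine ⟨U1, hU1, hU1Γ, fun γ hγ h a b => ?_⟩
    rw [zero_add, pow_one]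
    exact h1 γ hγ h a b
  | succ k ih =>
    obtain ⟨U, hU, hUΓ, h2⟩ := ih
    obtain ⟨U', hU', hU'U, h3⟩ := elem (p := p) ρ hopen S hS U hU hUΓ
      (EI n (Ideal.span {(p : A) ^ (k + 1)})) (EI n (Ideal.span {(p : A) ^ (k + 1 + 1)})) h2 (by
        intro X hX Y hY a b
        rw [Matrix.mul_apply]
        refine Ideal.sum_mem _ fun i _ => ?_
        obtain ⟨u, hu⟩ := Ideal.mem_span_singleton.1 (hX a i)
        obtain ⟨w, hw⟩ := Ideal.mem_span_singleton.1 (hY i b)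
        rw [Ideal.mem_span_singleton, hu, hw]
        refine ⟨(p : A) ^ k * u * w, ?_⟩
        ring) (by
        intro X hX a b
        obtain ⟨u, hu⟩ := Ideal.mem_span_singleton.1 (hX a b)
        rw [Matrix.smul_apply, smul_eq_mul, Ideal.mem_span_singleton, hu]
        exact ⟨u, by ring⟩)
    exact ⟨U', hU', hU'U.trans hUΓ, h3⟩

end

section

variable {Γ : Subgroup GQ} {A : Type} [CommRing A] [IsLocalRing A] [IsNoetherianRing A] {n : ℕ}
  (ρ : Γ →* GL (Fin n) A)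

omit [IsNoetherianRing A] in
theorem quot_stuff {I : Ideal A} (hI : I ≠ ⊤) (hfin : Finite (ResidueField A)) :
    ∃ (_ : IsLocalRing (A ⧸ I)), IsLocalHom (Ideal.Quotient.mk I) ∧
      Finite (ResidueField (A ⧸ I)) := by
  have hnt : Nontrivial (A ⧸ I) := Ideal.Quotient.nontrivial_iff.2 hI
  have hπs : Function.Surjective (Ideal.Quotient.mk I) := Ideal.Quotient.mk_surjective
  have hloc : IsLocalRing (A ⧸ I) := IsLocalRing.of_surjective' _ hπs
  have hπl : IsLocalHom (Ideal.Quotient.mk I) := IsLocalHom.of_surjective _ hπs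
  refine ⟨hloc, hπl, Finite.of_surjective (ResidueField.map (Ideal.Quotient.mk I)) ?_⟩
  intro y
  obtain ⟨y, rfl⟩ := residue_surjective y
  obtain ⟨z, rfl⟩ := hπs y
  exact ⟨residue A z, ResidueField.map_residue (Ideal.Quotient.mk I) z⟩

/-- **Quasi-unipotent Frobenius elements: the representation is potentially unipotent.** -/
theorem unip_gen (hval : S_VAL) (hnil : S_NIL) {p : ℕ} (hΓ : IsOpen (Γ : Set GQ)) (hp : p.Prime)
    (hpA : (p : A) ∈ maximalIdeal A) (hfin : Finite (ResidueField A))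
    (hopen : ∀ i, IsOpen (Kj ρ (maximalIdeal A ^ i) : Set GQ)) (S : Finset ℕ) (hS : UnrOut ρ S)
    (g : ℕ → GQ) (hg : ∀ U : Subgroup GQ, IsOpen (U : Set GQ) → ∀ (γ : GQ) (j0 : ℕ),
      ∃ j, j0 ≤ j ∧ γ⁻¹ * g j ∈ U)
    (N : ℕ → ℕ) (hN : ∀ j, 1 ≤ N j) (x : ℕ → GQ)
    (hx : ∀ j, x j * (g j ^ N j)⁻¹ ∈ Hj j (N j)) (j1 : ℕ)
    (hfrob : ∀ j ≥ j1, ∀ h : x j ∈ Γ, ∃ a : ℕ, a ≠ 0 ∧ ∃ r : ℕ,
      ((ρ ⟨x j, h⟩ : Matrix (Fin n) (Fin n) A) ^ a - 1) ^ r = 0) :
    (∃ U : Subgroup GQ, IsOpen (U : Set GQ) ∧ ∃ hU : U ≤ Γ, ∃ m : ℕ, ∀ g : Fin m → U,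
      (List.ofFn fun i => (res ρ hU (g i) : Matrix (Fin n) (Fin n) A) - 1).prod = 0) ∧
    (IsNilpotent (p : A) → (Set.range ρ).Finite) ∧
    ((∃ j2, ∀ j ≥ j2, ∀ h : x j ∈ Γ, ∃ a : ℕ, a ≠ 0 ∧ ρ ⟨x j, h⟩ ^ a = 1) →
      (Set.range ρ).Finite) := by
  obtain ⟨U1, hU1, hU1Γ, h1⟩ := fin_mod ρ hval hnil hΓ hp hpA hfin hopen S hS g hg N hN x hx j1 hfrob
  refine ⟨?_, ?_, ?_⟩
  · obtain ⟨U, hU, hUΓ, h2⟩ := mod_pk ρ hp hopen S hS U1 hU1 hU1Γ h1 1
    refine ⟨U, hU, hUΓ, ?_⟩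
    apply hnil A U n (res ρ hUΓ)
    rintro ⟨γ, hγ⟩
    refine ⟨n, fun a b => ?_⟩
    rw [← mem_nilradical, nilradical_eq_sInf, Ideal.mem_sInf]
    intro P hP
    have hPp : P.IsPrime := hP
    have hn : n ≠ 0 := by
      rintro rfl
      exact a.elim0
    by_cases hpP : (p : A) ∈ P
    · rw [← mul_pow_sub_one hn]
      refine mem_mul_left (I := P) (fun i j => ?_) a b
      have h3 : Ideal.span {(p : A) ^ (1 + 1)} ≤ P := by
        rw [Ideal.span_singleton_le_iff_mem]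
        exact Ideal.pow_mem_of_mem _ hpP _ (by norm_num)
      exact h3 (h2 γ hγ (hUΓ hγ) i j)
    · obtain ⟨hloc, hπl, hfinB⟩ := quot_stuff hPp.ne_top hfin
      set π : A →+* A ⧸ P := Ideal.Quotient.mk P with hπ
      obtain ⟨S', hS'⟩ := unr_res ρ hU hUΓ S hS
      have h4 := est_dom (bc (res ρ hUΓ) π) (p := p) hU hp (by
          rw [← map_natCast π]
          exact fun h => hpP (Ideal.Quotient.eq_zero_iff_mem.1 h)) (by
          rw [← map_natCast π]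
          have h5 := pow_le_comap π 1
          rw [pow_one, pow_one] at h5
          exact h5 hpA) hfinB
        (fun i => open_bc _ π (pow_le_comap π i) (by
          rw [Kj_res]
          exact (hopen i).inter hU)) S' (unr_bc _ π hS') g hg N hN x hx j1 (by
          intro j hj h
          obtain ⟨a, ha, r, h1⟩ := hfrob j hj (hUΓ h)
          refine ⟨a, ha, r, ?_⟩
          rw [bc_val, res_apply, ← map_pow, ← map_one π.mapMatrix, ← map_sub, ← map_pow, h1,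
            map_zero]) (by
          rintro ⟨y, hy⟩
          have h6 : ∀ a b, ∃ z : A, ((ρ ⟨y, hUΓ hy⟩ : Matrix (Fin n) (Fin n) A) - 1) a b =
              (p : A) ^ (1 + 1) * z := by
            intro a b
            obtain ⟨z, hz⟩ := Ideal.mem_span_singleton.1 (h2 y hy (hUΓ hy) a b)
            exact ⟨z, hz⟩
          choose Z hZ using h6
          refine ⟨Matrix.of fun a b => π ((p : A) * Z a b), fun a b => ?_, ?_⟩
          · rw [Matrix.of_apply]
            have h5 := pow_le_comap π 1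
            rw [pow_one, pow_one] at h5
            exact h5 (Ideal.mul_mem_right _ _ hpA)
          · rw [← sub_eq_iff_eq_add', bc_sub, res_apply]
            ext a b
            rw [RingHom.mapMatrix_apply, Matrix.map_apply, hZ, Matrix.smul_apply, Matrix.of_apply,
              smul_eq_mul, ← map_natCast π, ← map_mul]
            congr 1
            ring) ⟨γ, hγ⟩
      rw [bc_sub, ← map_pow] at h4
      exact Ideal.Quotient.eq_zero_iff_mem.1 (congrFun (congrFun h4 a) b)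
  · rintro ⟨k, hk⟩
    obtain ⟨U, hU, hUΓ, h2⟩ := mod_pk ρ hp hopen S hS U1 hU1 hU1Γ h1 k
    refine range_finite_of_sub ρ hU fun γ hγ h => ?_
    have h3 := h2 γ hγ h
    rw [pow_succ, hk, zero_mul, Ideal.span_singleton_eq_bot.2 rfl] at h3
    apply Units.ext
    rw [Units.val_one, ← sub_eq_zero]
    ext a b
    exact (Submodule.mem_bot A).1 (h3 a b)
  · rintro ⟨j2, hj2⟩
    exact gen_of_mod_p ρ hp hpA hfin hopen S hS g hg N hN x hx j2 hj2 U1 hU1 hU1Γ h1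

end

end Pool.Agent.Y802.TS
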