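import Mathlib
import Pool.Agent.H718R3.Main3

/-! Inertia groups in unramified extensions are trivial. -/

set_option autoImplicit false

open Module NumberField IsDedekindDomain Pool.Agent.TeamU

namespace Pool.Agent.Y802.TS

theorem perfect_res (R : Type) [Field R] [NumberField R] (p : Ideal (𝓞 R)) [hp : p.IsPrime]
    (hp0 : p ≠ ⊥) : PerfectField p.ResidueField := by
  have hm : p.IsMaximal := hp.isMaximal hp0
  have : Finite (𝓞 R ⧸ p) := Ideal.finiteQuotientOfFreeOfNeBot _ hp0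
  have hb := Ideal.bijective_algebraMap_quotient_residueField p
  have : Finite p.ResidueField := Finite.of_surjective _ hb.surjective
  infer_instance

theorem inert_trivial (k L : Type) [Field k] [NumberField k] [Field L] [NumberField L]
    [Algebra k L] [IsGalois k L] (h : ∀ P : HeightOneSpectrum (𝓞 L), Unr k P)
    (Q : Ideal (𝓞 L)) (hQ : Q.IsPrime) (hQ0 : Q ≠ ⊥) (γ : L ≃ₐ[k] L)
    (hγ : γ ∈ Q.inertia (L ≃ₐ[k] L)) : γ = 1 := by
  let Q' : HeightOneSpectrum (𝓞 L) := ⟨Q, hQ, hQ0⟩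
  obtain ⟨v, hv⟩ := exists_under k L Q'
  have hover : Q.LiesOver v.asIdeal := ⟨hv.symm⟩
  have h1 : v.asIdeal.ramificationIdx' Q = 1 := by
    obtain ⟨π, hπ⟩ := exists_unif v
    have h4 := h Q' v hv π
    rw [val_over hv, hπ] at h4
    exact exp_pow_eq_one h4
  have h2 : Q.ramificationIdx (𝓞 k) = 1 := by
    rw [← h1]
    exact (Ideal.ramificationIdx'_eq_ramificationIdx v.asIdeal Q v.ne_bot).symm
  have hG : IsGaloisGroup (L ≃ₐ[k] L) (𝓞 k) (𝓞 L) :=
    IsGaloisGroup.of_isFractionRing (L ≃ₐ[k] L) (𝓞 k) (𝓞 L) k L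
  have hfd : FiniteDimensional k L := Module.Finite.of_restrictScalars_finite ℚ k L
  have hperf : PerfectField v.asIdeal.ResidueField := perfect_res k v.asIdeal v.ne_bot
  have h3 : Nat.card (Q.inertia (L ≃ₐ[k] L)) = 1 := by
    rw [Ideal.card_inertia_eq_ramificationIdxIn v.asIdeal,
      Ideal.ramificationIdxIn_eq_ramificationIdx v.asIdeal Q (L ≃ₐ[k] L), h2]
  have h4 := (Nat.card_eq_one_iff_unique.1 h3).1
  have h5 : (⟨γ, hγ⟩ : Q.inertia (L ≃ₐ[k] L)) = 1 := Subsingleton.elim _ _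
  exact congrArg Subtype.val h5

end Pool.Agent.Y802.TS
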