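import Mathlib
import Pool.Agent.H718R3.Main3
import Pool.Agent.Y800.Defs
import Pool.Agent.Y802.TS.Inert

/-! The tower inside the field of algebraic numbers. -/

set_option autoImplicit false

open Module NumberField IsDedekindDomain IntermediateField Topology
open Pool.Agent.TeamU Pool.Agent.H718R3 Pool.Agent.Y800

namespace Pool.Agent.Y802.TS

attribute [local instance 10] DivisionRing.toRatAlgebra

/-- the algebraic closures are isomorphic -/
theorem exists_equiv (k : Type) [Field k] [NumberField k] :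
    Nonempty (AlgebraicClosure k ≃ₐ[ℚ] AlgebraicClosure ℚ) := by
  have h1 : Algebra.IsAlgebraic ℚ (AlgebraicClosure k) :=
    Algebra.IsAlgebraic.trans ℚ k (AlgebraicClosure k)
  have : IsAlgClosure ℚ (AlgebraicClosure k) := ⟨inferInstance, h1⟩
  exact ⟨IsAlgClosure.equiv ℚ (AlgebraicClosure k) (AlgebraicClosure ℚ)⟩

section
variable {k : Type} [Field k] [NumberField k] (e : AlgebraicClosure k ≃ₐ[ℚ] AlgebraicClosure ℚ)

/-- the subgroup fixing the image of `k` -/
def Gk : Subgroup GQ where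
  carrier := {g | ∀ a : k, g (e (algebraMap k _ a)) = e (algebraMap k _ a)}
  mul_mem' := by
    intro a b ha hb x
    rw [AlgEquiv.mul_apply, hb x, ha x]
  one_mem' := fun _ => rfl
  inv_mem' := by
    intro a ha x
    have h1 := ha x
    have h2 : a⁻¹ (a (e (algebraMap k _ x))) = e (algebraMap k _ x) := AlgEquiv.symm_apply_apply a _
    rw [h1] at h2
    exact h2

/-- the map to the absolute Galois group of `k` -/
noncomputable def Ah : Gk e →* Gal(AlgebraicClosure k/k) where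
  toFun g := AlgEquiv.ofRingEquiv (f := (e.trans (g.1.trans e.symm)).toRingEquiv) (by
    intro a
    change e.symm (g.1 (e (algebraMap k _ a))) = _
    rw [g.2 a]
    exact e.symm_apply_apply _)
  map_one' := by
    ext x
    change e.symm (e x) = x
    exact e.symm_apply_apply x
  map_mul' := by
    intro g h
    ext x
    change e.symm ((g.1 * h.1) (e x)) = e.symm (g.1 (e (e.symm (h.1 (e x)))))
    rw [AlgEquiv.mul_apply, e.apply_symm_apply]

theorem Ah_apply (g : Gk e) (x : AlgebraicClosure k) : Ah e g x = e.symm (g.1 (e x)) := rfl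

variable (M : IntermediateField k (AlgebraicClosure k)) [IsGalois k M]

/-- the map to the Galois group of the tower -/
noncomputable def th : Gk e →* Gal(M/k) := (AlgEquiv.restrictNormalHom M).comp (Ah e)

theorem th_apply (g : Gk e) (x : M) :
    ((th e M g x : M) : AlgebraicClosure k) = e.symm (g.1 (e x)) := by
  have := AlgEquiv.restrictNormal_commutes (Ah e g) M x
  exact this

theorem th_open (D : Subgroup Gal(M/k)) (hD : IsOpen (D : Set Gal(M/k))) :
    ∃ U : Subgroup GQ, IsOpen (U : Set GQ) ∧ ∀ g ∈ U, ∃ h : g ∈ Gk e, th e M ⟨g, h⟩ ∈ D := by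
  have h1 : (D : Set Gal(M/k)) ∈ 𝓝 (1 : Gal(M/k)) := hD.mem_nhds D.one_mem
  rw [krullTopology_mem_nhds_one_iff] at h1
  obtain ⟨E, hE, hED⟩ := h1
  have hE2 : FiniteDimensional k (lift E) := Module.Finite.equiv (liftAlgEquiv E).toLinearEquiv
  let E1 : IntermediateField ℚ (AlgebraicClosure k) := (lift E).restrictScalars ℚ
  have hE1 : FiniteDimensional ℚ (lift E) := FiniteDimensional.trans ℚ k (lift E)
  have hE1' : FiniteDimensional ℚ E1 := hE1
  let E2 : IntermediateField ℚ (AlgebraicClosure ℚ) :=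
    E1.map (e : AlgebraicClosure k →ₐ[ℚ] AlgebraicClosure ℚ)
  have hE2' : FiniteDimensional ℚ E2 :=
    Module.Finite.equiv (E1.equivMap (e : AlgebraicClosure k →ₐ[ℚ] AlgebraicClosure ℚ)).toLinearEquiv
  refine ⟨E2.fixingSubgroup, E2.fixingSubgroup_isOpen, fun g hg => ?_⟩
  rw [IntermediateField.mem_fixingSubgroup_iff] at hg
  have hg' : ∀ x ∈ lift E, g (e x) = e x := fun x hx => hg (e x) ⟨x, hx, rfl⟩
  have hgk : g ∈ Gk e := fun a => hg' _ ((lift E).algebraMap_mem a)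
  refine ⟨hgk, hED ?_⟩
  rw [SetLike.mem_coe, IntermediateField.mem_fixingSubgroup_iff]
  intro x hx
  apply Subtype.ext
  rw [th_apply, hg' _ ((mem_lift x).2 hx)]
  exact e.symm_apply_apply _

/-- the image in the field of algebraic numbers -/
noncomputable def img (Lc : IntermediateField k (AlgebraicClosure k)) :
    IntermediateField ℚ (AlgebraicClosure ℚ) :=
  (Lc.restrictScalars ℚ).map (e : AlgebraicClosure k →ₐ[ℚ] AlgebraicClosure ℚ)

theorem mem_img {Lc : IntermediateField k (AlgebraicClosure k)} {y : AlgebraicClosure ℚ} :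
    y ∈ img e Lc ↔ ∃ x ∈ Lc, e x = y := Iff.rfl

theorem img_mono {Lc Lc' : IntermediateField k (AlgebraicClosure k)} (h : Lc ≤ Lc') :
    img e Lc ≤ img e Lc' := by
  rintro y ⟨x, hx, rfl⟩
  exact ⟨x, h hx, rfl⟩

theorem mem_img_bot {y : AlgebraicClosure ℚ} :
    y ∈ img e (⊥ : IntermediateField k (AlgebraicClosure k)) ↔
      ∃ a : k, e (algebraMap k _ a) = y := by
  rw [mem_img]
  constructor
  · rintro ⟨x, hx, rfl⟩
    obtain ⟨a, rfl⟩ := IntermediateField.mem_bot.1 hx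
    exact ⟨a, rfl⟩
  · rintro ⟨a, rfl⟩
    exact ⟨_, IntermediateField.mem_bot.2 ⟨a, rfl⟩, rfl⟩

theorem mem_Gk_iff (g : GQ) :
    g ∈ Gk e ↔ ∀ y ∈ img e (⊥ : IntermediateField k (AlgebraicClosure k)), g y = y := by
  constructor
  · intro h y hy
    obtain ⟨a, rfl⟩ := (mem_img_bot e).1 hy
    exact h a
  · intro h a
    exact h _ ((mem_img_bot e).2 ⟨a, rfl⟩)

theorem finrank_img_bot :
    finrank ℚ (img e (⊥ : IntermediateField k (AlgebraicClosure k))) = finrank ℚ k := by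
  let f : k →ₐ[ℚ] AlgebraicClosure ℚ :=
    (e : AlgebraicClosure k →ₐ[ℚ] AlgebraicClosure ℚ).comp (Algebra.algHom ℚ k (AlgebraicClosure k))
  have h1 : f.fieldRange = img e (⊥ : IntermediateField k (AlgebraicClosure k)) := by
    ext y
    rw [mem_img_bot, AlgHom.mem_fieldRange]
    rfl
  rw [← h1]
  exact (AlgEquiv.ofInjectiveField f).toLinearEquiv.finrank_eq.symm

/-- elements whose image lies in the group of a subfield fix this subfield -/
theorem fix_img (Lf : IntermediateField k M) (g : Gk e) (hg : th e M g ∈ Lf.fixingSubgroup)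
    {y : AlgebraicClosure ℚ} (hy : y ∈ img e (lift Lf)) : g.1 y = y := by
  obtain ⟨x, hx, rfl⟩ := (mem_img e).1 hy
  have hxM : x ∈ M := lift_le Lf hx
  have h1 := th_apply e M g ⟨x, hxM⟩
  rw [(IntermediateField.mem_fixingSubgroup_iff Lf _).1 hg ⟨x, hxM⟩ ((mem_lift _).1 hx)] at h1
  have h2 := congrArg e h1
  rw [e.apply_symm_apply] at h2
  exact h2.symm

theorem normal_img (Lf : IntermediateField k M) [Normal k Lf] (g : Gk e)
    {y : AlgebraicClosure ℚ} (hy : y ∈ img e (lift Lf)) : g.1 y ∈ img e (lift Lf) := by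
  obtain ⟨x, hx, rfl⟩ := (mem_img e).1 hy
  have hxM : x ∈ M := lift_le Lf hx
  have h1 := th_apply e M g ⟨x, hxM⟩
  have hx' : (⟨x, hxM⟩ : M) ∈ Lf := (mem_lift _).1 hx
  have h2 := AlgEquiv.restrictNormal_commutes (th e M g) Lf ⟨⟨x, hxM⟩, hx'⟩
  have h3 : th e M g ⟨x, hxM⟩ ∈ Lf := by
    have h4 : th e M g ⟨x, hxM⟩ = algebraMap Lf M ((th e M g).restrictNormal Lf ⟨⟨x, hxM⟩, hx'⟩) :=
      h2.symm
    rw [h4]
    exact Subtype.mem _
  refine (mem_img e).2 ⟨_, (mem_lift _).2 h3, ?_⟩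
  rw [h1, e.apply_symm_apply]

theorem not_finite_img (Lc : IntermediateField k (AlgebraicClosure k))
    (h : ¬ FiniteDimensional k Lc) : ¬ FiniteDimensional ℚ (img e Lc) := by
  intro h1
  apply h
  have h0 : FiniteDimensional ℚ ((Lc.restrictScalars ℚ).map
    (e : AlgebraicClosure k →ₐ[ℚ] AlgebraicClosure ℚ)) := h1
  have h2 : FiniteDimensional ℚ (Lc.restrictScalars ℚ) :=
    Module.Finite.equiv ((Lc.restrictScalars ℚ).equivMap
      (e : AlgebraicClosure k →ₐ[ℚ] AlgebraicClosure ℚ)).symm.toLinearEquiv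
  have h3 : FiniteDimensional ℚ Lc := h2
  exact Module.Finite.of_restrictScalars_finite ℚ k Lc

omit [IsGalois k M] in
theorem real_img (hM : NT.Tow k M) (Lf : IntermediateField k M) (φ : img e (lift Lf) →+* ℂ)
    (x : img e (lift Lf)) : (φ x).im = 0 := by
  let j : ((lift Lf).restrictScalars ℚ) ≃ₐ[ℚ] img e (lift Lf) :=
    ((lift Lf).restrictScalars ℚ).equivMap (e : AlgebraicClosure k →ₐ[ℚ] AlgebraicClosure ℚ)
  let φ' : (lift Lf) →+* ℂ := φ.comp (j : ((lift Lf).restrictScalars ℚ) →+* img e (lift Lf))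
  have h1 := NT.real_sub M hM (lift Lf) (lift_le Lf) φ' (j.symm x)
  have h2 : φ' (j.symm x) = φ x := congrArg φ (j.apply_symm_apply x)
  rwa [h2] at h1

/-- inertia elements over `k` fix the tower -/
theorem inertia_img (hM : NT.Tow k M) (g : Gk e) (p : ℕ) (hp : p.Prime) (P : Ideal ZBar)
    (hP : P.IsMaximal) (hpP : (p : ZBar) ∈ P) (hg : InInertia P g.1) (Lf : IntermediateField k M)
    {y : AlgebraicClosure ℚ} (hy : y ∈ img e (lift Lf)) : g.1 y = y := by
  obtain ⟨x, hx, rfl⟩ := (mem_img e).1 hy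
  have hxM : x ∈ M := lift_le Lf hx
  have hfd : FiniteDimensional k (k⟮(⟨x, hxM⟩ : M)⟯) :=
    adjoin.finiteDimensional (Algebra.IsIntegral.isIntegral (R := k) (⟨x, hxM⟩ : M))
  obtain ⟨L1, ⟨i1, h1⟩, h2⟩ := hM.cover (k⟮(⟨x, hxM⟩ : M)⟯) hfd
  have hgal := h1.galois
  have hxL : (⟨x, hxM⟩ : M) ∈ L1 := h2 (mem_adjoin_simple_self k _)
  let ψ0 : L1 →+* AlgebraicClosure ℚ :=
    ((e : AlgebraicClosure k →+* AlgebraicClosure ℚ).comp (algebraMap M (AlgebraicClosure k))).comp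
      (algebraMap L1 M)
  let ψ : 𝓞 L1 →+* ZBar := RingOfIntegers.mapRingHom ψ0
  have hψ : ∀ a : 𝓞 L1, ((ψ a : ZBar) : AlgebraicClosure ℚ) = ψ0 (a : L1) := fun a => rfl
  let γ : L1 ≃ₐ[k] L1 := (th e M g).restrictNormal L1
  have hγ : ∀ a : L1, ψ0 (γ a) = g.1 (ψ0 a) := by
    intro a
    have h3 := AlgEquiv.restrictNormal_commutes (th e M g) L1 a
    have h4 : ψ0 (γ a) = e ((th e M g (algebraMap L1 M a) : M) : AlgebraicClosure k) := by
      rw [← h3]
      rfl
    rw [h4, th_apply, e.apply_symm_apply]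
    rfl
  let Q : Ideal (𝓞 L1) := P.comap ψ
  have hPp : P.IsPrime := hP.isPrime
  have hQ : Q.IsPrime := inferInstance
  have hQ0 : Q ≠ ⊥ := by
    intro h0
    have h3 : (p : 𝓞 L1) ∈ Q := by
      change ψ (p : 𝓞 L1) ∈ P
      rw [map_natCast]
      exact hpP
    rw [h0, Ideal.mem_bot] at h3
    have : p = 0 := by exact_mod_cast h3
    exact hp.ne_zero this
  have hin : γ ∈ Q.inertia (L1 ≃ₐ[k] L1) := by
    intro a
    change ψ (γ • a - a) ∈ P
    rw [map_sub]
    have h3 : ψ (γ • a) = g.1 • ψ a := by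
      apply RingOfIntegers.ext
      rw [hψ]
      exact hγ a
    rw [h3]
    exact hg (ψ a)
  have h5 := inert_trivial k L1 h1.unr Q hQ hQ0 γ hin
  have h6 := hγ ⟨⟨x, hxM⟩, hxL⟩
  rw [h5] at h6
  exact h6.symm

omit [IsGalois k M] in
/-- degrees of elements are powers of two -/
theorem degree_img (hM : NT.Tow k M) (hk : finrank ℚ k = 2) (Lf : IntermediateField k M)
    {y : AlgebraicClosure ℚ} (hy : y ∈ img e (lift Lf)) : ∃ m : ℕ, finrank ℚ ℚ⟮y⟯ = 2 ^ m := by
  obtain ⟨x, hx, rfl⟩ := (mem_img e).1 hy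
  have hxM : x ∈ M := lift_le Lf hx
  have hfd : FiniteDimensional k (k⟮(⟨x, hxM⟩ : M)⟯) :=
    adjoin.finiteDimensional (Algebra.IsIntegral.isIntegral (R := k) (⟨x, hxM⟩ : M))
  obtain ⟨L1, ⟨i1, h1⟩, h2⟩ := hM.cover (k⟮(⟨x, hxM⟩ : M)⟯) hfd
  have hxL : (⟨x, hxM⟩ : M) ∈ L1 := h2 (mem_adjoin_simple_self k _)
  obtain ⟨m, hm⟩ := h1.pow
  let ψ0 : L1 →ₐ[ℚ] AlgebraicClosure ℚ := RingHom.toRatAlgHom
    (((e : AlgebraicClosure k →+* AlgebraicClosure ℚ).comp (algebraMap M (AlgebraicClosure k))).comp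
      (algebraMap L1 M))
  have hle : ℚ⟮e x⟯ ≤ ψ0.fieldRange := by
    rw [adjoin_simple_le_iff]
    exact ⟨⟨⟨x, hxM⟩, hxL⟩, rfl⟩
  have hfr : finrank ℚ ψ0.fieldRange = 2 ^ (m + 1) := by
    have h9 : finrank ℚ L1 = finrank ℚ ψ0.fieldRange :=
      (AlgEquiv.ofInjectiveField ψ0).toLinearEquiv.finrank_eq
    rw [← h9, ← finrank_mul_finrank ℚ k L1, hk, hm, pow_succ, mul_comm]
  have hdvd : finrank ℚ ℚ⟮e x⟯ ∣ 2 ^ (m + 1) := by
    rw [← hfr]
    exact IntermediateField.finrank_dvd_of_le_right hle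
  obtain ⟨j, -, hj⟩ := (Nat.dvd_prime_pow Nat.prime_two).mp hdvd
  exact ⟨j, hj⟩

end

end Pool.Agent.Y802.TS
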