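import Pool.Agent.Y802.TS.Star

/-! Finiteness of the image, coefficients in a discrete valuation ring of characteristic zero. -/

set_option autoImplicit false

open Matrix IsLocalRing Finset NumberField Topology

namespace Pool.Agent.Y802.TS

attribute [local instance 10] DivisionRing.toRatAlgebra

open Pool.Agent.Y800

theorem finiteIndex_of_open {K : Subgroup GQ} (hK : IsOpen (K : Set GQ)) : K.FiniteIndex := by
  have hq : Finite (GQ ⧸ K) := Subgroup.quotient_finite_of_isOpen _ hK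
  exact Subgroup.finiteIndex_of_finite_quotient

theorem range_finite_of_le {Γ : Subgroup GQ} {H : Type*} [Group H] (ρ : Γ →* H) (K : Subgroup GQ)
    (hK : K.FiniteIndex) (h : ∀ γ ∈ K, ∀ h : γ ∈ Γ, ρ ⟨γ, h⟩ = 1) : (Set.range ρ).Finite := by
  have h2 : (K.subgroupOf Γ).FiniteIndex := inferInstance
  have h3 : K.subgroupOf Γ ≤ ρ.ker := by
    rintro ⟨γ, hγ⟩ hγK
    exact h γ hγK hγ
  have h4 : ρ.ker.FiniteIndex := Subgroup.finiteIndex_of_le h3
  have h5 : Finite (Γ ⧸ ρ.ker) := inferInstance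
  have h6 : Finite ρ.range := Finite.of_equiv _ (QuotientGroup.quotientKerEquivRange ρ).toEquiv
  rw [← MonoidHom.coe_range]
  exact Set.toFinite _

/-- the main estimate -/
theorem frob_rel {Γ : Subgroup GQ} {O : Type*} [CommRing O] {n : ℕ} (ρ : Γ →* GL (Fin n) O)
    (J : ℕ → Ideal O) {g x : GQ} {N j i : ℕ} (hg : g ∈ Kj ρ (J i)) (hx : x * (g ^ N)⁻¹ ∈ Kj ρ (J (j * N)))
    (hx1 : ∀ h : x ∈ Γ, ρ ⟨x, h⟩ = 1) : ∃ h : g ∈ Γ, ∀ a b,
      (((ρ ⟨g, h⟩ : Matrix (Fin n) (Fin n) O)) ^ N - 1) a b ∈ J (j * N) := by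
  have hgΓ := ((mem_Kj ρ).1 hg).1
  have h1 : (x * (g ^ N)⁻¹)⁻¹ ∈ Kj ρ (J (j * N)) := Subgroup.inv_mem _ hx
  obtain ⟨h2, h3⟩ := (mem_Kj ρ).1 h1
  have hxΓ : x ∈ Γ := by
    have h4 : x = ((x * (g ^ N)⁻¹)⁻¹)⁻¹ * g ^ N := by group
    rw [h4]
    exact Γ.mul_mem (Γ.inv_mem h2) (Γ.pow_mem hgΓ N)
  refine ⟨hgΓ, fun a b => ?_⟩
  have h5 : (⟨(x * (g ^ N)⁻¹)⁻¹, h2⟩ : Γ) = (⟨g, hgΓ⟩ : Γ) ^ N * (⟨x, hxΓ⟩ : Γ)⁻¹ := by
    apply Subtype.ext
    change (x * (g ^ N)⁻¹)⁻¹ = g ^ N * x⁻¹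
    group
  have h6 : ρ ⟨(x * (g ^ N)⁻¹)⁻¹, h2⟩ = (ρ ⟨g, hgΓ⟩) ^ N := by
    rw [h5, map_mul, map_pow, map_inv, hx1 hxΓ, inv_one, mul_one]
  have h7 := h3 a b
  rw [h6, Units.val_pow_eq_pow_val] at h7
  exact h7

section

variable {Γ : Subgroup GQ} {O : Type*} [CommRing O] [IsDomain O] [IsDiscreteValuationRing O]
  {n : ℕ} (ρ : Γ →* GL (Fin n) O) {p : ℕ}

theorem exists_e (hp0 : (p : O) ≠ 0) : ∃ e : ℕ, Ideal.span {(p : O)} = maximalIdeal O ^ e := by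
  obtain ⟨ϖ, hϖ⟩ := IsDiscreteValuationRing.exists_irreducible O
  have h1 : Ideal.span {(p : O)} ≠ ⊥ := by
    rw [Ne, Ideal.span_singleton_eq_bot]
    exact hp0
  obtain ⟨e, he⟩ := IsDiscreteValuationRing.ideal_eq_span_pow_irreducible h1 hϖ
  refine ⟨e, ?_⟩
  rw [he, hϖ.maximalIdeal_eq, Ideal.span_singleton_pow]

theorem fm_zero (hp : p.Prime) (hpO : (p : O) ∈ maximalIdeal O) (hp0 : (p : O) ≠ 0)
    (g : ℕ → GQ) (hg : ∀ U : Subgroup GQ, IsOpen (U : Set GQ) → ∀ (γ : GQ) (j0 : ℕ),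
      ∃ j, j0 ≤ j ∧ γ⁻¹ * g j ∈ U)
    (N : ℕ → ℕ) (hN : ∀ j, 1 ≤ N j) (x : ℕ → GQ)
    (hx : ∀ j, x j * (g j ^ N j)⁻¹ ∈ Hj j (N j))
    (hstar : ∃ j0, ∀ j ≥ j0, ∀ N ≥ 1, Hj j N ≤ Kj ρ (maximalIdeal O ^ (j * N)))
    (hopen : ∀ i, IsOpen (Kj ρ (maximalIdeal O ^ i) : Set GQ))
    (j1 : ℕ) (hsplit : ∀ j ≥ j1, ∀ h : x j ∈ Γ, ρ ⟨x j, h⟩ = 1) : (Set.range ρ).Finite := by
  obtain ⟨e, he⟩ := exists_e (O := O) hp0
  obtain ⟨j0, hj0⟩ := hstar
  have key : ∀ γ ∈ Kj ρ (maximalIdeal O ^ (e + 1)), ∀ i ≥ e + 1, γ ∈ Kj ρ (maximalIdeal O ^ i) := by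
    intro γ hγ i hi
    obtain ⟨j, hj, hgj⟩ := hg _ (hopen i) γ (max (max j0 j1) (i + e + 2))
    have hjj0 : j0 ≤ j := (le_max_left _ _).trans ((le_max_left _ _).trans hj)
    have hjj1 : j1 ≤ j := (le_max_right _ _).trans ((le_max_left _ _).trans hj)
    have hji : i + e + 2 ≤ j := (le_max_right _ _).trans hj
    have hgK : g j ∈ Kj ρ (maximalIdeal O ^ (e + 1)) := by
      have h1 := Kj_mono ρ (Ideal.pow_le_pow_right hi) hgj
      have h2 := (Kj ρ (maximalIdeal O ^ (e + 1))).mul_mem hγ h1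
      rwa [mul_inv_cancel_left] at h2
    have hNj := hN j
    have hjN : j ≤ j * N j := Nat.le_mul_of_pos_right _ hNj
    obtain ⟨h1, h2⟩ := frob_rel ρ (fun i => maximalIdeal O ^ i) (N := N j) (j := j) hgK
      (hj0 j hjj0 _ hNj (hx j)) (hsplit j hjj1)
    -- the matrix of `g j`
    set v := padicValNat p (N j) with hv
    have hvN : v ≤ N j := by
      have h3 : v < N j := by
        rw [hv]
        have h4 := padicValNat_le_nat_log (p := p) (N j)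
        have h5 : Nat.log p (N j) < N j := Nat.log_lt_self _ (by omega)
        omega
      exact h3.le
    have hev : e * v ≤ j * N j := (Nat.mul_le_mul_left _ hvN).trans
      (Nat.mul_le_mul_right _ (by omega))
    have hpow : maximalIdeal O ^ (j * N j) =
        Ideal.span {(p : O) ^ v} * maximalIdeal O ^ (j * N j - e * v) := by
      rw [← Ideal.span_singleton_pow, he, ← pow_mul, ← pow_add]
      congr 1
      omega
    have hX : ∀ a b, ∃ z ∈ maximalIdeal O ^ (j * N j - e * v),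
        (((ρ ⟨g j, h1⟩ : Matrix (Fin n) (Fin n) O)) ^ (N j) - 1) a b = (p : O) ^ v * z := by
      intro a b
      have h3 := h2 a b
      change _ ∈ maximalIdeal O ^ (j * N j) at h3
      rw [hpow, Ideal.mem_span_singleton_mul] at h3
      obtain ⟨z, hz, hz'⟩ := h3
      exact ⟨z, hz, hz'.symm⟩
    choose X hX1 hX2 using hX
    have hDp : Dp p (ρ ⟨g j, h1⟩ : Matrix (Fin n) (Fin n) O) := by
      obtain ⟨_, h3⟩ := (mem_Kj ρ).1 hgK
      have h4 : ∀ a b, ∃ z ∈ maximalIdeal O,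
          ((ρ ⟨g j, h1⟩ : Matrix (Fin n) (Fin n) O) - 1) a b = (p : O) * z := by
        intro a b
        have h5 := h3 a b
        rw [pow_succ, ← he, Ideal.mem_span_singleton_mul] at h5
        obtain ⟨z, hz, hz'⟩ := h5
        exact ⟨z, hz, hz'.symm⟩
      choose Y hY1 hY2 using h4
      refine ⟨Matrix.of Y, hY1, ?_⟩
      rw [← sub_eq_iff_eq_add']
      ext a b
      rw [hY2, Matrix.smul_apply, Matrix.of_apply, smul_eq_mul]
    have hreg : ∀ a : O, (p : O) * a = 0 → a = 0 := fun a ha =>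
      (mul_eq_zero.1 ha).resolve_left hp0
    have hM := depth_lemma hp hpO hreg hDp (N j) (by omega) (maximalIdeal O ^ (j * N j - e * v))
      (Matrix.of X) hX1 (by
        ext a b
        rw [hX2, Matrix.smul_apply, Matrix.of_apply, smul_eq_mul])
    have hle : i ≤ j * N j - e * v := by
      have h3 : e * v ≤ e * N j := Nat.mul_le_mul_left _ hvN
      have h4 : (i + e) * N j ≤ j * N j := Nat.mul_le_mul_right _ (by omega)
      have h5 : i ≤ i * N j := Nat.le_mul_of_pos_right _ hNj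
      rw [add_mul] at h4
      omega
    have h3 : g j ∈ Kj ρ (maximalIdeal O ^ i) :=
      (mem_Kj ρ).2 ⟨h1, fun a b => Ideal.pow_le_pow_right hle (hM a b)⟩
    have h4 := (Kj ρ (maximalIdeal O ^ i)).mul_mem h3
      ((Kj ρ (maximalIdeal O ^ i)).inv_mem hgj)
    have h5 : g j * (γ⁻¹ * g j)⁻¹ = γ := by group
    rwa [h5] at h4
  refine range_finite_of_le ρ _ (finiteIndex_of_open (hopen (e + 1))) ?_
  intro γ hγ hγΓ
  have h1 : ∀ a b, ((ρ ⟨γ, hγΓ⟩ : Matrix (Fin n) (Fin n) O) - 1) a b = 0 := by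
    intro a b
    have h2 : ∀ i, ((ρ ⟨γ, hγΓ⟩ : Matrix (Fin n) (Fin n) O) - 1) a b ∈ maximalIdeal O ^ i := by
      intro i
      have h3 := key γ hγ (max i (e + 1)) (le_max_right _ _)
      obtain ⟨_, h4⟩ := (mem_Kj ρ).1 h3
      exact Ideal.pow_le_pow_right (le_max_left _ _) (h4 a b)
    have h3 : ((ρ ⟨γ, hγΓ⟩ : Matrix (Fin n) (Fin n) O) - 1) a b ∈ ⨅ i : ℕ, maximalIdeal O ^ i :=
      Ideal.mem_iInf.2 h2
    rw [Ideal.iInf_pow_eq_bot_of_isLocalRing _ (maximalIdeal.isMaximal O).ne_top] at h3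
    exact h3
  apply Units.ext
  rw [Units.val_one, ← sub_eq_zero]
  ext a b
  exact h1 a b

end

end Pool.Agent.Y802.TS
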