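import Pool.Agent.Y802.TS.CharP
import Pool.Agent.TH831.OE.Pts

/-! Finite image in characteristic `p`. -/

set_option autoImplicit false

open Matrix IsLocalRing Finset NumberField Topology Polynomial

namespace Pool.Agent.Y802.TS

attribute [local instance 10] DivisionRing.toRatAlgebra

open Pool.Agent.Y800

section map

variable {Γ : Subgroup GQ} {A : Type*} [CommRing A] {B : Type*} [CommRing B]
  {n : ℕ} (ρ : Γ →* GL (Fin n) A) (φ : A →+* B)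

/-- the base change -/
noncomputable def bc : Γ →* GL (Fin n) B := (Matrix.GeneralLinearGroup.map φ).comp ρ

theorem bc_val (γ : Γ) : (bc ρ φ γ : Matrix (Fin n) (Fin n) B) = φ.mapMatrix (ρ γ) := rfl

theorem bc_sub (γ : Γ) : (bc ρ φ γ : Matrix (Fin n) (Fin n) B) - 1 =
    φ.mapMatrix ((ρ γ : Matrix (Fin n) (Fin n) A) - 1) := by
  rw [map_sub, map_one, bc_val]

theorem Kj_bc {I : Ideal A} {J : Ideal B} (h : I ≤ J.comap φ) : Kj ρ I ≤ Kj (bc ρ φ) J := by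
  intro γ hγ
  obtain ⟨h1, h2⟩ := (mem_Kj ρ).1 hγ
  refine (mem_Kj _).2 ⟨h1, fun a b => ?_⟩
  rw [bc_sub, RingHom.mapMatrix_apply, Matrix.map_apply]
  exact h (h2 a b)

theorem open_bc {I : Ideal A} {J : Ideal B} (h : I ≤ J.comap φ) (h1 : IsOpen (Kj ρ I : Set GQ)) :
    IsOpen (Kj (bc ρ φ) J : Set GQ) :=
  Subgroup.isOpen_mono (Kj_bc ρ φ h) h1

theorem pow_le_comap [IsLocalRing A] [IsLocalRing B] [IsLocalHom φ] (i : ℕ) :
    maximalIdeal A ^ i ≤ (maximalIdeal B ^ i).comap φ := by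
  refine le_trans (Ideal.pow_right_mono ?_ i) (Ideal.le_comap_pow φ i)
  intro a ha
  rw [mem_maximalIdeal, mem_nonunits_iff] at ha
  rw [Ideal.mem_comap, mem_maximalIdeal, mem_nonunits_iff]
  exact fun h => ha (isUnit_of_map_unit φ a h)

theorem unr_bc {S : Finset ℕ} (hS : UnrOut ρ S) : UnrOut (bc ρ φ) S := by
  intro q hq hqS P hP hqP τ hτ
  obtain ⟨h1, h2⟩ := hS q hq hqS P hP hqP τ hτ
  refine ⟨h1, ?_⟩
  change Matrix.GeneralLinearGroup.map φ (ρ ⟨τ, h1⟩) = 1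
  rw [h2, map_one]

end map

section

variable {Γ : Subgroup GQ} {A : Type} [CommRing A] [IsLocalRing A] [IsNoetherianRing A] {n : ℕ}
  (ρ : Γ →* GL (Fin n) A)

theorem nil_char (hval : S_VAL) {p : ℕ} (hΓ : IsOpen (Γ : Set GQ)) (hp : p.Prime)
    (hp0 : (p : A) = 0) (hfin : Finite (ResidueField A))
    (hopen : ∀ i, IsOpen (Kj ρ (maximalIdeal A ^ i) : Set GQ)) (S : Finset ℕ) (hS : UnrOut ρ S)
    (g : ℕ → GQ) (hg : ∀ U : Subgroup GQ, IsOpen (U : Set GQ) → ∀ (γ : GQ) (j0 : ℕ),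
      ∃ j, j0 ≤ j ∧ γ⁻¹ * g j ∈ U)
    (N : ℕ → ℕ) (hN : ∀ j, 1 ≤ N j) (x : ℕ → GQ)
    (hx : ∀ j, x j * (g j ^ N j)⁻¹ ∈ Hj j (N j)) (j1 : ℕ)
    (hfrob : ∀ j ≥ j1, ∀ h : x j ∈ Γ, ∃ a : ℕ, a ≠ 0 ∧ ∃ r : ℕ,
      ((ρ ⟨x j, h⟩ : Matrix (Fin n) (Fin n) A) ^ a - 1) ^ r = 0)
    (γ : GQ) (hγ : γ ∈ Kj ρ (maximalIdeal A)) (hγΓ : γ ∈ Γ) (a b : Fin n) :
    IsNilpotent ((((ρ ⟨γ, hγΓ⟩ : Matrix (Fin n) (Fin n) A) - 1) ^ n) a b) := by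
  by_contra hcon
  have hmem : (((ρ ⟨γ, hγΓ⟩ : Matrix (Fin n) (Fin n) A) - 1) ^ n) a b ∈ maximalIdeal A := by
    obtain ⟨h1, h2⟩ := (mem_Kj ρ).1 hγ
    have hn : n ≠ 0 := by
      rintro rfl
      exact a.elim0
    rw [← mul_pow_sub_one hn]
    exact mem_mul_left h2 a b
  obtain ⟨O, _, _, _, φ, hφ, hφb, hfinO⟩ := Pool.Agent.TH831.OE.exists_point hfin hcon hmem
  apply hφb
  have h1 := est_char (bc ρ φ) hval hΓ hp (by rw [← map_natCast φ, hp0, map_zero]) hfinO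
    (fun i => open_bc ρ φ (pow_le_comap φ i) (hopen i)) S (unr_bc ρ φ hS) g hg N hN x hx j1 (by
      intro j hj h
      obtain ⟨a, ha, r, h1⟩ := hfrob j hj h
      refine ⟨a, ha, r, ?_⟩
      rw [bc_val, ← map_pow, ← map_one φ.mapMatrix, ← map_sub, ← map_pow, h1, map_zero]) γ (by
      have h2 := pow_le_comap φ 1
      rw [pow_one, pow_one] at h2
      exact Kj_bc ρ φ h2 hγ) hγΓ
  rw [bc_sub, ← map_pow] at h1
  exact congrFun (congrFun h1 a) b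

/-- the span of the matrices `ρ γ - 1` -/
def JJ (U : Subgroup GQ) : Submodule A (Matrix (Fin n) (Fin n) A) :=
  Submodule.span A {X | ∃ γ : GQ, γ ∈ U ∧ ∃ h : γ ∈ Γ, (ρ ⟨γ, h⟩ : Matrix (Fin n) (Fin n) A) - 1 = X}

omit [IsLocalRing A] [IsNoetherianRing A] in
theorem JJ_mul (U : Subgroup GQ) : JJ ρ U * JJ ρ U ≤ JJ ρ U := by
  unfold JJ
  rw [Submodule.span_mul_span, Submodule.span_le]
  rintro _ ⟨_, ⟨γ, hγ, h, rfl⟩, _, ⟨γ', hγ', h', rfl⟩, rfl⟩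
  change ((ρ ⟨γ, h⟩ : Matrix (Fin n) (Fin n) A) - 1) * ((ρ ⟨γ', h'⟩ : Matrix (Fin n) (Fin n) A) - 1) ∈
    Submodule.span A _
  have h1 : ((ρ ⟨γ, h⟩ : Matrix (Fin n) (Fin n) A) - 1) *
      ((ρ ⟨γ', h'⟩ : Matrix (Fin n) (Fin n) A) - 1) =
      ((ρ ⟨γ * γ', Γ.mul_mem h h'⟩ : Matrix (Fin n) (Fin n) A) - 1) -
      ((ρ ⟨γ, h⟩ : Matrix (Fin n) (Fin n) A) - 1) -
      ((ρ ⟨γ', h'⟩ : Matrix (Fin n) (Fin n) A) - 1) := by
    have h2 : (ρ ⟨γ * γ', Γ.mul_mem h h'⟩ : Matrix (Fin n) (Fin n) A) =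
        (ρ ⟨γ, h⟩ : Matrix (Fin n) (Fin n) A) * ρ ⟨γ', h'⟩ := by
      rw [← Units.val_mul, ← map_mul]
      rfl
    rw [h2]
    noncomm_ring
  rw [h1]
  exact Submodule.sub_mem _ (Submodule.sub_mem _
    (Submodule.subset_span ⟨_, U.mul_mem hγ hγ', _, rfl⟩) (Submodule.subset_span ⟨_, hγ, _, rfl⟩))
    (Submodule.subset_span ⟨_, hγ', _, rfl⟩)

omit [IsLocalRing A] [IsNoetherianRing A] in
theorem JJ_pow (U : Subgroup GQ) (k d : ℕ) : JJ ρ U ^ (k + 1 + d) ≤ JJ ρ U ^ (k + 1) := by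
  induction d with
  | zero => exact le_rfl
  | succ d ih =>
    refine le_trans ?_ ih
    have h1 : k + 1 + (d + 1) = (k + d) + 2 := by omega
    have h2 : k + 1 + d = (k + d) + 1 := by omega
    rw [h1, h2, pow_add _ (k + d) 2, pow_add _ (k + d) 1, pow_two (JJ ρ U), pow_one (JJ ρ U)]
    exact mul_le_mul' le_rfl (JJ_mul ρ U)

omit [IsLocalRing A] [IsNoetherianRing A] in
theorem JJ_bot {U : Subgroup GQ} (hU : U ≤ Γ) {m : ℕ} (h : ∀ g : Fin m → U,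
    (List.ofFn fun i => (res ρ hU (g i) : Matrix (Fin n) (Fin n) A) - 1).prod = 0) :
    JJ ρ U ^ m = ⊥ := by
  unfold JJ
  rw [Submodule.span_pow, Submodule.span_eq_bot]
  intro X hX
  obtain ⟨f, rfl⟩ := Set.mem_pow.1 hX
  have h1 : ∀ i, ∃ γ : U, (res ρ hU γ : Matrix (Fin n) (Fin n) A) - 1 = f i := by
    intro i
    obtain ⟨γ, hγ, h, h2⟩ := (f i).2
    exact ⟨⟨γ, hγ⟩, h2⟩
  choose γ hγ using h1
  rw [← h γ]
  congr 2
  ext1 i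
  exact (hγ i).symm

/-- **Finite image in characteristic `p`.** -/
theorem fin_char (hval : S_VAL) (hnil : S_NIL) {p : ℕ} (hΓ : IsOpen (Γ : Set GQ)) (hp : p.Prime)
    (hp0 : (p : A) = 0) (hfin : Finite (ResidueField A))
    (hopen : ∀ i, IsOpen (Kj ρ (maximalIdeal A ^ i) : Set GQ)) (S : Finset ℕ) (hS : UnrOut ρ S)
    (g : ℕ → GQ) (hg : ∀ U : Subgroup GQ, IsOpen (U : Set GQ) → ∀ (γ : GQ) (j0 : ℕ),
      ∃ j, j0 ≤ j ∧ γ⁻¹ * g j ∈ U)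
    (N : ℕ → ℕ) (hN : ∀ j, 1 ≤ N j) (x : ℕ → GQ)
    (hx : ∀ j, x j * (g j ^ N j)⁻¹ ∈ Hj j (N j)) (j1 : ℕ)
    (hfrob : ∀ j ≥ j1, ∀ h : x j ∈ Γ, ∃ a : ℕ, a ≠ 0 ∧ ∃ r : ℕ,
      ((ρ ⟨x j, h⟩ : Matrix (Fin n) (Fin n) A) ^ a - 1) ^ r = 0) :
    ∃ U : Subgroup GQ, IsOpen (U : Set GQ) ∧ U ≤ Γ ∧ ∀ γ : GQ, γ ∈ U → ∀ h : γ ∈ Γ,
      ρ ⟨γ, h⟩ = 1 := by
  have hpf : Fact p.Prime := ⟨hp⟩
  set K1 := Kj ρ (maximalIdeal A) with hK1
  have hK1o : IsOpen (K1 : Set GQ) := by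
    have := hopen 1
    rwa [pow_one] at this
  have hK1Γ : K1 ≤ Γ := fun γ hγ => ((mem_Kj ρ).1 hγ).1
  obtain ⟨m, hm⟩ := hnil A K1 n (res ρ hK1Γ) (fun γ => ⟨n, fun a b =>
    nil_char ρ hval hΓ hp hp0 hfin hopen S hS g hg N hN x hx j1 hfrob γ γ.2 (hK1Γ γ.2) a b⟩)
  have hbot := JJ_bot ρ hK1Γ hm
  have key : ∀ k : ℕ, ∃ U : Subgroup GQ, IsOpen (U : Set GQ) ∧ U ≤ Γ ∧
      ∀ γ : GQ, γ ∈ U → ∀ h : γ ∈ Γ,
        (ρ ⟨γ, h⟩ : Matrix (Fin n) (Fin n) A) - 1 ∈ JJ ρ K1 ^ (k + 1) := by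
    intro k
    induction k with
    | zero =>
      refine ⟨K1, hK1o, hK1Γ, fun γ hγ h => ?_⟩
      rw [zero_add, pow_one]
      exact Submodule.subset_span ⟨γ, hγ, h, rfl⟩
    | succ k ih =>
      obtain ⟨U, hU, hUΓ, h2⟩ := ih
      obtain ⟨U', hU', hU'U, h3⟩ := elem (p := p) ρ hopen S hS U hU hUΓ
        (JJ ρ K1 ^ (k + 1)) (JJ ρ K1 ^ (k + 1 + 1)) h2 (by
          intro X hX Y hY
          have h4 : JJ ρ K1 ^ (k + 1) * JJ ρ K1 ^ (k + 1) ≤ JJ ρ K1 ^ (k + 1 + 1) := by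
            rw [← pow_add]
            have h5 : k + 1 + (k + 1) = (k + 1) + 1 + k := by omega
            rw [h5]
            exact JJ_pow ρ K1 (k + 1) k
          exact h4 (Submodule.mul_mem_mul hX hY)) (by
          intro X hX
          rw [hp0, zero_smul]
          exact Submodule.zero_mem _)
      exact ⟨U', hU', hU'U.trans hUΓ, h3⟩
  obtain ⟨U, hU, hUΓ, h2⟩ := key m
  refine ⟨U, hU, hUΓ, fun γ hγ h => ?_⟩
  have h3 := h2 γ hγ h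
  rw [pow_succ, hbot, Submodule.bot_mul, Submodule.mem_bot] at h3
  exact Units.ext (sub_eq_zero.1 h3)

/-- finite image modulo `p` -/
theorem fin_mod (hval : S_VAL) (hnil : S_NIL) {p : ℕ} (hΓ : IsOpen (Γ : Set GQ)) (hp : p.Prime)
    (hpA : (p : A) ∈ maximalIdeal A) (hfin : Finite (ResidueField A))
    (hopen : ∀ i, IsOpen (Kj ρ (maximalIdeal A ^ i) : Set GQ)) (S : Finset ℕ) (hS : UnrOut ρ S)
    (g : ℕ → GQ) (hg : ∀ U : Subgroup GQ, IsOpen (U : Set GQ) → ∀ (γ : GQ) (j0 : ℕ),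
      ∃ j, j0 ≤ j ∧ γ⁻¹ * g j ∈ U)
    (N : ℕ → ℕ) (hN : ∀ j, 1 ≤ N j) (x : ℕ → GQ)
    (hx : ∀ j, x j * (g j ^ N j)⁻¹ ∈ Hj j (N j)) (j1 : ℕ)
    (hfrob : ∀ j ≥ j1, ∀ h : x j ∈ Γ, ∃ a : ℕ, a ≠ 0 ∧ ∃ r : ℕ,
      ((ρ ⟨x j, h⟩ : Matrix (Fin n) (Fin n) A) ^ a - 1) ^ r = 0) :
    ∃ U : Subgroup GQ, IsOpen (U : Set GQ) ∧ U ≤ Γ ∧ ∀ γ : GQ, γ ∈ U → ∀ h : γ ∈ Γ,
      ∀ a b, ((ρ ⟨γ, h⟩ : Matrix (Fin n) (Fin n) A) - 1) a b ∈ Ideal.span {(p : A)} := by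
  set I : Ideal A := Ideal.span {(p : A)} with hI
  have hIm : I ≤ maximalIdeal A := (Ideal.span_singleton_le_iff_mem _).2 hpA
  have hnt : Nontrivial (A ⧸ I) := Ideal.Quotient.nontrivial_iff.2 fun h =>
    (maximalIdeal.isMaximal A).ne_top (top_le_iff.1 (h ▸ hIm))
  set π : A →+* A ⧸ I := Ideal.Quotient.mk I with hπ
  have hπs : Function.Surjective π := Ideal.Quotient.mk_surjective
  have hloc : IsLocalRing (A ⧸ I) := IsLocalRing.of_surjective' _ hπs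
  have hπl : IsLocalHom π := IsLocalHom.of_surjective _ hπs
  have hfinB : Finite (ResidueField (A ⧸ I)) :=
    Finite.of_surjective (ResidueField.map π) (by
      intro y
      obtain ⟨y, rfl⟩ := residue_surjective y
      obtain ⟨z, rfl⟩ := hπs y
      exact ⟨residue A z, ResidueField.map_residue π z⟩)
  obtain ⟨U, hU, hUΓ, h1⟩ := fin_char (bc ρ π) hval hnil hΓ hp (by
      rw [← map_natCast π]
      exact Ideal.Quotient.eq_zero_iff_mem.2 (Ideal.mem_span_singleton_self _)) hfinB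
    (fun i => open_bc ρ π (pow_le_comap π i) (hopen i)) S (unr_bc ρ π hS) g hg N hN x hx j1 (by
      intro j hj h
      obtain ⟨a, ha, r, h1⟩ := hfrob j hj h
      refine ⟨a, ha, r, ?_⟩
      rw [bc_val, ← map_pow, ← map_one π.mapMatrix, ← map_sub, ← map_pow, h1, map_zero])
  refine ⟨U, hU, hUΓ, fun γ hγ h a b => ?_⟩
  have h2 := h1 γ hγ h
  have h3 : (bc ρ π ⟨γ, h⟩ : Matrix (Fin n) (Fin n) (A ⧸ I)) - 1 = 0 := by
    rw [h2, Units.val_one, sub_self]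
  rw [bc_sub] at h3
  exact Ideal.Quotient.eq_zero_iff_mem.1 (congrFun (congrFun h3 a) b)

end

end Pool.Agent.Y802.TS
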