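import Pool.Agent.Y802.TS.Core

/-! Elements of the small subgroups act almost trivially in every finitely ramified representation. -/

set_option autoImplicit false

open Matrix IsLocalRing Finset NumberField Topology

namespace Pool.Agent.Y802.TS

attribute [local instance 10] DivisionRing.toRatAlgebra

open Pool.Agent.Y800

/-- the group `Γ` and the representation are unramified outside `S` -/
def UnrOut {Γ : Subgroup GQ} {A : Type*} [CommRing A] {n : ℕ} (ρ : Γ →* GL (Fin n) A)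
    (S : Finset ℕ) : Prop :=
  ∀ q : ℕ, q.Prime → q ∉ S → ∀ P : Ideal ZBar, P.IsMaximal → (q : ZBar) ∈ P →
    ∀ τ : GQ, InInertia P τ → ∃ h : τ ∈ Γ, ρ ⟨τ, h⟩ = 1

section

variable {Γ : Subgroup GQ} {A : Type*} [CommRing A] {n : ℕ} (ρ : Γ →* GL (Fin n) A)

/-- the elements which are trivial modulo `J` -/
noncomputable def Kj (J : Ideal A) : Subgroup GQ :=
  (((Matrix.GeneralLinearGroup.map (Ideal.Quotient.mk J)).comp ρ).ker).map Γ.subtype

theorem mem_Kj {J : Ideal A} {γ : GQ} : γ ∈ Kj ρ J ↔ ∃ h : γ ∈ Γ, ∀ a b,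
    ((ρ ⟨γ, h⟩ : Matrix (Fin n) (Fin n) A) - 1) a b ∈ J := by
  have key : ∀ x : Γ, x ∈ ((Matrix.GeneralLinearGroup.map (Ideal.Quotient.mk J)).comp ρ).ker ↔
      ∀ a b, ((ρ x : Matrix (Fin n) (Fin n) A) - 1) a b ∈ J := by
    intro x
    rw [MonoidHom.mem_ker, MonoidHom.comp_apply]
    constructor
    · intro h a b
      have h1 := congrArg (fun M : GL (Fin n) (A ⧸ J) => (M : Matrix (Fin n) (Fin n) (A ⧸ J)) a b) h
      change Ideal.Quotient.mk J ((ρ x : Matrix (Fin n) (Fin n) A) a b) =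
        (1 : Matrix (Fin n) (Fin n) (A ⧸ J)) a b at h1
      rw [← Ideal.Quotient.eq_zero_iff_mem, Matrix.sub_apply, map_sub, h1, Matrix.one_apply,
        Matrix.one_apply]
      split_ifs <;> simp
    · intro h
      apply Units.ext
      ext a b
      change Ideal.Quotient.mk J ((ρ x : Matrix (Fin n) (Fin n) A) a b) =
        (1 : Matrix (Fin n) (Fin n) (A ⧸ J)) a b
      have h1 := h a b
      rw [← Ideal.Quotient.eq_zero_iff_mem, Matrix.sub_apply, map_sub, sub_eq_zero] at h1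
      rw [h1, Matrix.one_apply, Matrix.one_apply]
      split_ifs <;> simp
  constructor
  · rintro ⟨x, hx, rfl⟩
    exact ⟨x.2, (key x).1 hx⟩
  · rintro ⟨h, h1⟩
    exact ⟨⟨γ, h⟩, (key _).2 h1, rfl⟩

theorem Kj_mono {J J' : Ideal A} (h : J ≤ J') : Kj ρ J ≤ Kj ρ J' := by
  intro γ hγ
  rw [mem_Kj] at hγ ⊢
  obtain ⟨h1, h2⟩ := hγ
  exact ⟨h1, fun a b => h (h2 a b)⟩

theorem card_GL_le (R : Type*) [CommRing R] [Finite R] :
    Nat.card (GL (Fin n) R) ≤ Nat.card R ^ (n * n) := by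
  have h1 : Nat.card (GL (Fin n) R) ≤ Nat.card (Matrix (Fin n) (Fin n) R) :=
    Nat.card_le_card_of_injective _ Units.val_injective
  have h2 : Nat.card (Matrix (Fin n) (Fin n) R) = Nat.card R ^ (n * n) := by
    change Nat.card (Fin n → Fin n → R) = _
    rw [Nat.card_fun, Nat.card_fun, Nat.card_fin, ← pow_mul]
  exact h1.trans h2.le

theorem Kj_index (hΓ : IsOpen (Γ : Set GQ)) (J : Ideal A) [Finite (A ⧸ J)] :
    (Kj ρ J).index ≠ 0 ∧ (Kj ρ J).index ≤ Γ.index * Nat.card (A ⧸ J) ^ (n * n) := by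
  have hq : Finite (GQ ⧸ Γ) := Subgroup.quotient_finite_of_isOpen _ hΓ
  have hΓ0 : Γ.index ≠ 0 := by
    change Nat.card (GQ ⧸ Γ) ≠ 0
    exact Nat.card_pos.ne'
  have h1 : (Kj ρ J).index = (((Matrix.GeneralLinearGroup.map
      (Ideal.Quotient.mk J)).comp ρ).ker).index * Γ.index := by
    unfold Kj
    rw [Subgroup.index_map_subtype]
  have h2 := Subgroup.index_ker ((Matrix.GeneralLinearGroup.map (Ideal.Quotient.mk J)).comp ρ)
  have h3 : Nat.card ((Matrix.GeneralLinearGroup.map (Ideal.Quotient.mk J)).comp ρ).range ≤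
      Nat.card (GL (Fin n) (A ⧸ J)) := Subgroup.card_le_card_group _
  have h4 : Nat.card ((Matrix.GeneralLinearGroup.map (Ideal.Quotient.mk J)).comp ρ).range ≠ 0 :=
    Nat.card_pos.ne'
  refine ⟨?_, ?_⟩
  · rw [h1, h2]
    exact mul_ne_zero h4 hΓ0
  · rw [h1, h2, mul_comm]
    exact Nat.mul_le_mul_left _ (h3.trans (card_GL_le _))

theorem star (hΓ : IsOpen (Γ : Set GQ)) (J : ℕ → Ideal A) (hfin : ∀ i, Finite (A ⧸ J i))
    (hgrow : ∀ d : ℕ, ∃ j0, ∀ j ≥ j0, ∀ N ≥ 1, d * Nat.card (A ⧸ J (j * N)) ^ (n * n) ≤ Ej j N)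
    (hopen : ∀ i, IsOpen (Kj ρ (J i) : Set GQ)) (S : Finset ℕ) (hS : UnrOut ρ S) :
    ∃ j0, ∀ j ≥ j0, ∀ N ≥ 1, Hj j N ≤ Kj ρ (J (j * N)) := by
  obtain ⟨j0, hj0⟩ := hgrow Γ.index
  refine ⟨max j0 (S.sup id + 1), fun j hj N hN => ?_⟩
  have h1 := hj0 j (le_trans (le_max_left _ _) hj) N hN
  obtain ⟨h2, h3⟩ := Kj_index ρ hΓ (J (j * N))
  refine le_trans ?_ (Subgroup.normalCore_le _)
  apply Hj_le
  · exact Subgroup.normalCore_normal _
  · exact core_open (hopen _)
  · exact (core_index _ h2).trans (Nat.factorial_le (h3.trans h1))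
  · intro q hq hqj P hP hqP τ hτ
    have hqS : q ∉ S := by
      intro h
      apply hqj
      rw [Finset.mem_filter, Finset.mem_range]
      refine ⟨?_, hq⟩
      have h4 : q ≤ S.sup id := Finset.le_sup (f := id) h
      have h5 := le_trans (le_max_right _ _) hj
      omega
    intro b
    obtain ⟨P', hP', hqP', hb⟩ : ∃ P' : Ideal ZBar, P'.IsMaximal ∧ (q : ZBar) ∈ P' ∧
        InInertia P' (b * τ * b⁻¹) := by
      let r := MulSemiringAction.toRingEquiv GQ ZBar b⁻¹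
      refine ⟨P.comap (r : ZBar →+* ZBar), Ideal.comap_isMaximal_of_equiv r, ?_, ?_⟩
      · rw [Ideal.mem_comap, map_natCast]
        exact hqP
      · intro z
        rw [Ideal.mem_comap]
        change b⁻¹ • ((b * τ * b⁻¹) • z - z) ∈ P
        rw [smul_sub, ← mul_smul]
        have h6 := hτ (b⁻¹ • z)
        rw [← mul_smul] at h6
        have h7 : b⁻¹ * (b * τ * b⁻¹) = τ * b⁻¹ := by group
        rw [h7]
        exact h6
    obtain ⟨h6, h7⟩ := hS q hq hqS P' hP' hqP' _ hb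
    rw [mem_Kj]
    refine ⟨h6, fun a c => ?_⟩
    rw [h7, Units.val_one, sub_self]
    exact (J (j * N)).zero_mem

end

end Pool.Agent.Y802.TS
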